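import Mathlib

open Finset

namespace Pool.Agent.helper51DH

/-- A family of norms on finite real vectors which is monotone under maps that are
injective on the support (so it is a symmetric lattice norm). -/
structure SNorm where
  N : ∀ {ι : Type} [Fintype ι], (ι → ℝ) → ℝ
  mono : ∀ {ι κ : Type} [Fintype ι] [Fintype κ] (g : ι → κ) (x : ι → ℝ) (y : κ → ℝ),
    (∀ i j, x i ≠ 0 → x j ≠ 0 → g i = g j → i = j) → (∀ i, |x i| ≤ |y (g i)|) → N x ≤ N y
  add_le : ∀ {ι : Type} [Fintype ι] (x y : ι → ℝ), N (fun i => x i + y i) ≤ N x + N y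
  smul_eq : ∀ {ι : Type} [Fintype ι] (c : ℝ) (x : ι → ℝ), N (fun i => c * x i) = |c| * N x
  unit_pos : 0 < N (fun _ : Unit => (1 : ℝ))

namespace SNorm

variable (S : SNorm)

/-- fundamental function -/
noncomputable def lam (n : ℕ) : ℝ := S.N (fun _ : Fin n => (1 : ℝ))

lemma mono' {ι : Type} [Fintype ι] (x y : ι → ℝ) (h : ∀ i, |x i| ≤ |y i|) : S.N x ≤ S.N y :=
  S.mono id x y (fun _ _ _ _ h => h) h

lemma mono_inj {ι κ : Type} [Fintype ι] [Fintype κ] (g : ι → κ) (hg : Function.Injective g)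
    (x : ι → ℝ) (y : κ → ℝ) (h : ∀ i, |x i| ≤ |y (g i)|) : S.N x ≤ S.N y :=
  S.mono g x y (fun _ _ _ _ h => hg h) h

lemma nonneg {ι : Type} [Fintype ι] (x : ι → ℝ) : 0 ≤ S.N x := by
  have h0 : S.N (fun i => (0 : ℝ) * x i) = |(0 : ℝ)| * S.N x := S.smul_eq 0 x
  have h1 : S.N (fun i => (0 : ℝ) * x i) ≤ S.N x :=
    S.mono' _ _ (fun i => by simp)
  rw [h0] at h1
  simpa using h1

lemma zero_eq {ι : Type} [Fintype ι] : S.N (fun _ : ι => (0 : ℝ)) = 0 := by
  have h0 := S.smul_eq 0 (fun _ : ι => (0 : ℝ))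
  simpa using h0

lemma sum_le {ι J : Type} [Fintype ι] (s : Finset J) (f : J → ι → ℝ) :
    S.N (fun i => ∑ j ∈ s, f j i) ≤ ∑ j ∈ s, S.N (f j) := by
  classical
  induction s using Finset.induction_on with
  | empty => simp [S.zero_eq]
  | insert a s ha ih =>
    have : (fun i => ∑ j ∈ insert a s, f j i) = (fun i => f a i + ∑ j ∈ s, f j i) := by
      funext i; rw [Finset.sum_insert ha]
    rw [this, Finset.sum_insert ha]
    exact (S.add_le _ _).trans (by linarith)

lemma le_of_coord {ι : Type} [Fintype ι] (x : ι → ℝ) (i : ι) :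
    |x i| * S.N (fun _ : Unit => (1 : ℝ)) ≤ S.N x := by
  have h := S.smul_eq (x i) (fun _ : Unit => (1 : ℝ))
  rw [← h]
  exact S.mono_inj (fun _ => i) (fun _ _ _ => rfl) _ _ (fun _ => by simp)

lemma pos_of_ne {ι : Type} [Fintype ι] (x : ι → ℝ) (i : ι) (hi : x i ≠ 0) : 0 < S.N x :=
  lt_of_lt_of_le (mul_pos (abs_pos.mpr hi) S.unit_pos) (S.le_of_coord x i)

lemma one_eq_lam {ι : Type} [Fintype ι] : S.N (fun _ : ι => (1 : ℝ)) = S.lam (Fintype.card ι) := by
  unfold lam
  apply le_antisymm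
  · exact S.mono_inj (Fintype.equivFin ι) (Fintype.equivFin ι).injective _ _ (fun _ => le_rfl)
  · exact S.mono_inj (Fintype.equivFin ι).symm (Fintype.equivFin ι).symm.injective _ _
      (fun _ => le_rfl)

lemma lam_mono {m n : ℕ} (h : m ≤ n) : S.lam m ≤ S.lam n :=
  S.mono_inj (Fin.castLE h) (Fin.castLE_injective h) _ _ (fun _ => le_rfl)

lemma lam_nonneg (n : ℕ) : 0 ≤ S.lam n := S.nonneg _

lemma lam_one_eq : S.lam 1 = S.N (fun _ : Unit => (1 : ℝ)) := by
  have := S.one_eq_lam (ι := Unit)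
  simp only [Fintype.card_unit] at this
  exact this.symm

lemma lam_one_pos : 0 < S.lam 1 := by
  rw [lam_one_eq]; exact S.unit_pos

lemma lam_pos {n : ℕ} (h : 1 ≤ n) : 0 < S.lam n := lt_of_lt_of_le S.lam_one_pos (S.lam_mono h)

/-- an indicator vector -/
lemma ind_le {ι : Type} [Fintype ι] [DecidableEq ι] (A : Finset ι) (c : ℝ) (x : ι → ℝ)
    (hx : ∀ i ∈ A, |x i| ≤ c) (hx0 : ∀ i, i ∉ A → x i = 0) (hc : 0 ≤ c) :
    S.N x ≤ c * S.lam A.card := by
  classical
  rcases A.eq_empty_or_nonempty with rfl | ⟨a, ha⟩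
  · have : x = fun _ => 0 := by funext i; exact hx0 i (by simp)
    rw [this, S.zero_eq]
    exact mul_nonneg hc (S.lam_nonneg _)
  have h1 : S.N (fun _ : A => c) = c * S.lam A.card := by
    have := S.smul_eq c (fun _ : A => (1:ℝ))
    simp only [mul_one] at this
    rw [this, abs_of_nonneg hc, S.one_eq_lam, Fintype.card_coe]
  rw [← h1]
  refine S.mono (fun i => if h : i ∈ A then ⟨i, h⟩ else ⟨a, ha⟩) x (fun _ : A => c) ?_ ?_
  · intro i j hi hj hij
    have hiA : i ∈ A := by by_contra h; exact hi (hx0 i h)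
    have hjA : j ∈ A := by by_contra h; exact hj (hx0 j h)
    simp only [hiA, hjA, dif_pos] at hij
    exact congrArg Subtype.val hij
  · intro i
    by_cases h : i ∈ A
    · rw [abs_of_nonneg hc]; exact hx i h
    · rw [hx0 i h]; simp

lemma le_ind {ι : Type} [Fintype ι] [DecidableEq ι] (A : Finset ι) (c : ℝ) (x : ι → ℝ)
    (hx : ∀ i ∈ A, c ≤ |x i|) (hc : 0 ≤ c) :
    c * S.lam A.card ≤ S.N x := by
  classical
  have h1 : S.N (fun _ : A => c) = c * S.lam A.card := by
    have := S.smul_eq c (fun _ : A => (1:ℝ))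
    simp only [mul_one] at this
    rw [this, abs_of_nonneg hc, S.one_eq_lam, Fintype.card_coe]
  rw [← h1]
  refine S.mono_inj (fun i : A => (i : ι)) Subtype.val_injective _ _ ?_
  intro i
  rw [abs_of_nonneg hc]
  exact hx i i.2

/-- the norm is at most the l1 norm times the norm of a unit -/
lemma le_l1 {ι : Type} [Fintype ι] (x : ι → ℝ) : S.N x ≤ S.lam 1 * ∑ i, |x i| := by
  classical
  have h1 : x = (fun i => ∑ j ∈ (Finset.univ : Finset ι), (if i = j then x j else 0)) := by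
    funext i
    simp
  have h2 := S.sum_le (Finset.univ : Finset ι) (fun j k => if k = j then x j else (0:ℝ))
  rw [← h1] at h2
  refine h2.trans ?_
  rw [Finset.mul_sum]
  apply Finset.sum_le_sum
  intro j _
  have := S.ind_le {j} |x j| (fun k => if k = j then x j else (0:ℝ)) (by simp) (by
    intro i hi; simp at hi; simp [hi]) (abs_nonneg _)
  simp only [Finset.card_singleton] at this
  linarith

/-- the tensor bound -/
def TB (K : ℝ) : Prop := ∀ (m n : ℕ) (a : Fin m → ℝ) (x : Fin n → ℝ),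
  S.N (fun p : Fin m × Fin n => a p.1 * x p.2) ≤ K * S.N a * S.N x

/-- lower tensor bound -/
def LB (c : ℝ) : Prop := ∀ (m n : ℕ) (a : Fin m → ℝ) (x : Fin n → ℝ),
  c * S.N a * S.N x ≤ S.N (fun p : Fin m × Fin n => a p.1 * x p.2)

lemma reindex {ι κ : Type} [Fintype ι] [Fintype κ] (e : ι ≃ κ) (x : κ → ℝ) :
    S.N (fun i => x (e i)) = S.N x := by
  apply le_antisymm
  · exact S.mono_inj e e.injective _ _ (fun _ => le_rfl)
  · exact S.mono_inj e.symm e.symm.injective _ _ (fun _ => by simp)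

lemma TB.gen {K : ℝ} (h : S.TB K) {ι κ : Type} [Fintype ι] [Fintype κ] (a : ι → ℝ) (x : κ → ℝ) :
    S.N (fun p : ι × κ => a p.1 * x p.2) ≤ K * S.N a * S.N x := by
  have h1 := h _ _ (fun i => a ((Fintype.equivFin ι).symm i)) (fun i => x ((Fintype.equivFin κ).symm i))
  rw [S.reindex (Fintype.equivFin ι).symm a, S.reindex (Fintype.equivFin κ).symm x] at h1
  have h2 := S.reindex ((Fintype.equivFin ι).symm.prodCongr (Fintype.equivFin κ).symm)
    (fun p : ι × κ => a p.1 * x p.2)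
  simp only [Equiv.prodCongr_apply, Prod.map_fst, Prod.map_snd] at h2
  rw [← h2]
  exact h1

lemma LB.gen {c : ℝ} (h : S.LB c) {ι κ : Type} [Fintype ι] [Fintype κ] (a : ι → ℝ) (x : κ → ℝ) :
    c * S.N a * S.N x ≤ S.N (fun p : ι × κ => a p.1 * x p.2) := by
  have h1 := h _ _ (fun i => a ((Fintype.equivFin ι).symm i)) (fun i => x ((Fintype.equivFin κ).symm i))
  rw [S.reindex (Fintype.equivFin ι).symm a, S.reindex (Fintype.equivFin κ).symm x] at h1
  have h2 := S.reindex ((Fintype.equivFin ι).symm.prodCongr (Fintype.equivFin κ).symm)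
    (fun p : ι × κ => a p.1 * x p.2)
  simp only [Equiv.prodCongr_apply, Prod.map_fst, Prod.map_snd] at h2
  rw [← h2]
  exact h1

/-- tensor powers -/
noncomputable def pw {ι : Type} (x : ι → ℝ) (n : ℕ) : (Fin n → ι) → ℝ := fun w => ∏ j, x (w j)

lemma N_pw_succ {ι : Type} [Fintype ι] (x : ι → ℝ) (n : ℕ) :
    S.N (pw x (n+1)) = S.N (fun p : ι × (Fin n → ι) => x p.1 * pw x n p.2) := by
  rw [← S.reindex (Fin.consEquiv (fun _ : Fin (n+1) => ι)) (pw x (n+1))]
  congr 1
  funext p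
  simp [pw, Fin.prod_univ_succ, Fin.consEquiv]

lemma N_pw_zero {ι : Type} [Fintype ι] (x : ι → ℝ) : S.N (pw x 0) = S.lam 1 := by
  have : pw x 0 = fun _ => (1:ℝ) := by funext w; simp [pw]
  rw [this, S.one_eq_lam]
  congr 1

lemma N_pw_le {K : ℝ} (hK0 : 0 ≤ K) (hK : S.TB K) {ι : Type} [Fintype ι] (x : ι → ℝ) (n : ℕ) :
    S.N (pw x n) ≤ S.lam 1 * (K * S.N x) ^ n := by
  induction n with
  | zero => simp [N_pw_zero]
  | succ n ih =>
    rw [N_pw_succ]
    refine (TB.gen S hK x (pw x n)).trans ?_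
    calc K * S.N x * S.N (pw x n) ≤ K * S.N x * (S.lam 1 * (K * S.N x) ^ n) :=
          mul_le_mul_of_nonneg_left ih (mul_nonneg hK0 (S.nonneg _))
      _ = _ := by ring

lemma le_N_pw {c : ℝ} (hc0 : 0 ≤ c) (hc : S.LB c) {ι : Type} [Fintype ι] (x : ι → ℝ) (n : ℕ) :
    S.lam 1 * (c * S.N x) ^ n ≤ S.N (pw x n) := by
  induction n with
  | zero => simp [N_pw_zero]
  | succ n ih =>
    rw [N_pw_succ]
    refine le_trans ?_ (LB.gen S hc x (pw x n))
    calc S.lam 1 * (c * S.N x) ^ (n+1) = c * S.N x * (S.lam 1 * (c * S.N x) ^ n) := by ring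
      _ ≤ _ := mul_le_mul_of_nonneg_left ih (mul_nonneg hc0 (S.nonneg _))

lemma lam_mul_le {K : ℝ} (hK : S.TB K) (m n : ℕ) : S.lam (m * n) ≤ K * S.lam m * S.lam n := by
  have h := hK m n (fun _ => 1) (fun _ => 1)
  simp only [mul_one] at h
  have hcard : Fintype.card (Fin m × Fin n) = m * n := by simp
  rw [S.one_eq_lam (ι := Fin m × Fin n), hcard] at h
  exact h

lemma le_lam_mul {c : ℝ} (hc : S.LB c) (m n : ℕ) : c * S.lam m * S.lam n ≤ S.lam (m * n) := by
  have h := hc m n (fun _ => 1) (fun _ => 1)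
  simp only [mul_one] at h
  have hcard : Fintype.card (Fin m × Fin n) = m * n := by simp
  rw [S.one_eq_lam (ι := Fin m × Fin n), hcard] at h
  exact h

end SNorm

end Pool.Agent.helper51DH
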