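import Pool.Agent.helper51_dh.Tensor

open Finset Filter Topology

namespace Pool.Agent.helper51DH

namespace AtomicLattice

variable {E : Type*} [NormedAddCommGroup E] [NormedSpace ℝ E] (L : AtomicLattice E)

lemma coord_bound (x : E) (n : ℕ) : |L.coord x n| * ‖L.unit n‖ ≤ ‖x‖ := by
  rw [← Real.norm_eq_abs, ← norm_smul]
  apply L.norm_le_norm
  intro m
  rw [map_smul, Pi.smul_apply, L.coord_unit]
  by_cases h : m = n
  · subst h; simp
  · simp [h]

lemma finite_part_le (x : E) (F : Finset ℕ) : ‖∑ n ∈ F, L.coord x n • L.unit n‖ ≤ ‖x‖ := by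
  apply L.norm_le_norm
  intro m
  rw [L.coord_unit_sum F (fun n => L.coord x n) (fun n => n) m, Finset.sum_ite_eq]
  split_ifs
  · exact le_rfl
  · rw [abs_zero]; exact abs_nonneg _

lemma coord_tendsto {u : ℕ → E} {l : E} (h : Tendsto u atTop (𝓝 l)) (n : ℕ) :
    Tendsto (fun k => L.coord (u k) n) atTop (𝓝 (L.coord l n)) := by
  have hpos : 0 < ‖L.unit n‖ := norm_pos_iff.mpr (L.unit_ne n)
  rw [tendsto_iff_norm_sub_tendsto_zero] at h ⊢
  have h2 : Tendsto (fun k => ‖u k - l‖ / ‖L.unit n‖) atTop (𝓝 0) := by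
    simpa using h.div_const ‖L.unit n‖
  refine squeeze_zero (fun _ => norm_nonneg _) (fun k => ?_) h2
  rw [le_div_iff₀ hpos]
  have := L.coord_bound (u k - l) n
  rw [map_sub, Pi.sub_apply] at this
  rw [Real.norm_eq_abs]
  exact this

variable [CompleteSpace E]

/-- a sequence whose finite sections are controlled by a summable nonnegative sequence belongs to `E` -/
lemma mem_of_control (y : ℕ → ℝ) (g : ℕ → ℝ) (hg : Summable g)
    (Φ : ℝ → ℝ) (hΦ : ∀ ε > 0, ∃ η > 0, ∀ t, 0 ≤ t → t < η → Φ t < ε)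
    (hg0 : ∀ n, 0 ≤ g n)
    (h : ∀ F : Finset ℕ, ‖∑ n ∈ F, y n • L.unit n‖ ≤ Φ (∑ n ∈ F, g n)) :
    ∃ x : E, L.coord x = y := by
  have hcau : CauchySeq (fun m => ∑ n ∈ range m, y n • L.unit n) := by
    rw [Metric.cauchySeq_iff']
    intro ε hε
    obtain ⟨η, hη, hη2⟩ := hΦ ε hε
    have h1 := hg.hasSum.tendsto_sum_nat.cauchySeq
    rw [Metric.cauchySeq_iff'] at h1
    obtain ⟨N, hN⟩ := h1 η hη
    refine ⟨N, fun m hm => ?_⟩
    have h2 := hN m hm
    rw [Real.dist_eq, ← Finset.sum_range_add_sum_Ico _ hm, add_sub_cancel_left] at h2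
    rw [dist_eq_norm, ← Finset.sum_range_add_sum_Ico _ hm, add_sub_cancel_left]
    refine lt_of_le_of_lt (h _) (hη2 _ (Finset.sum_nonneg (fun n _ => hg0 n)) ?_)
    exact (le_abs_self _).trans_lt h2
  obtain ⟨l, hl⟩ := cauchySeq_tendsto_of_complete hcau
  refine ⟨l, funext fun n => ?_⟩
  have h1 := L.coord_tendsto hl n
  have h2 : Tendsto (fun k => L.coord (∑ n ∈ range k, y n • L.unit n) n) atTop (𝓝 (y n)) := by
    apply tendsto_const_nhds.congr'
    filter_upwards [eventually_gt_atTop n] with k hk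
    rw [L.coord_unit_sum (range k) y (fun n => n) n, Finset.sum_ite_eq]
    simp [hk]
  exact tendsto_nhds_unique h1 h2

lemma section_le_NN (hS : L.IsSymmetric) (y : ℕ → ℝ) (F : Finset ℕ) :
    ‖∑ n ∈ F, y n • L.unit n‖ ≤ L.NN (fun n : F => y n) := by
  have := L.le_NN hS (fun n : F => y n) ⟨fun n : F => (n : ℕ), Subtype.val_injective⟩
  refine le_trans (le_of_eq ?_) this
  rw [← Finset.sum_coe_sort F (fun n => y n • L.unit n)]
  rfl

/-- The sandwich theorem. -/
theorem sandwich (hS : L.IsSymmetric)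
    (hup : ∀ x : ℕ → E, (∀ n, ‖x n‖ = 1) → L.DisjointSeq x → ∃ (φ : ℕ → ℕ) (C : ℝ),
      StrictMono φ ∧ 0 < C ∧ ∀ (s : Finset ℕ) (a : ℕ → ℝ),
        ‖∑ k ∈ s, a k • x (φ k)‖ ≤ C * ‖∑ k ∈ s, a k • L.unit k‖) :
    ∃ p : ENNReal, 1 ≤ p ∧ (∀ x : E, Memℓp (L.coord x) p) ∧
      ∀ r : ENNReal, 1 ≤ r → (r < p ∨ r = 1) → ∀ y : ℕ → ℝ, Memℓp y r →
        ∃ x : E, L.coord x = y := by
  classical
  obtain ⟨K, hK, hTB⟩ := L.exists_TB hS hup
  set S := L.toSNorm hS with hSdef
  obtain ⟨s, hs0, hs1, hlow, hupp⟩ := S.exists_index hK hTB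
  obtain ⟨M, hM, hMN⟩ := L.NN_le hS
  -- the upper inclusion for r = 1
  have hr1 : ∀ y : ℕ → ℝ, Memℓp y 1 → ∃ x : E, L.coord x = y := by
    intro y hy
    have hsum : Summable (fun n => |y n|) := by
      have := hy.summable (by norm_num)
      simpa using this
    refine L.mem_of_control y (fun n => |y n|) hsum (fun t => S.lam 1 * t) ?_ (fun n => abs_nonneg _) ?_
    · intro ε hε
      have h1 := S.lam_one_pos
      refine ⟨ε / S.lam 1, by positivity, fun t _ ht => ?_⟩
      rw [lt_div_iff₀ h1] at ht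
      change S.lam 1 * t < ε
      linarith
    · intro F
      refine (L.section_le_NN hS y F).trans ?_
      have h1 := S.le_l1 (fun n : F => y n)
      refine h1.trans (le_of_eq ?_)
      change S.lam 1 * ∑ i : F, |y i| = S.lam 1 * ∑ n ∈ F, |y n|
      rw [Finset.sum_coe_sort F (fun n => |y n|)]
  -- the upper inclusion in general
  have hr : ∀ r : ENNReal, 1 ≤ r → r ≠ ⊤ → s < 1 / r.toReal → ∀ y : ℕ → ℝ, Memℓp y r →
      ∃ x : E, L.coord x = y := by
    intro r hr1 hrt hsr y hy
    have hrpos : 0 < r.toReal := by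
      apply ENNReal.toReal_pos
      · intro h; rw [h] at hr1; simp at hr1
      · exact hrt
    obtain ⟨C, hC, hCn⟩ := hupp ((s + 1 / r.toReal) / 2) (by linarith)
    obtain ⟨C', hC', hC'x⟩ := S.le_lr hrpos (by linarith) (by
      have : 0 < 1 / r.toReal := by positivity
      linarith) hC hCn
    have hsum : Summable (fun n => |y n| ^ r.toReal) := by
      have := hy.summable hrpos
      simpa using this
    refine L.mem_of_control y (fun n => |y n| ^ r.toReal) hsum (fun t => C' * t ^ (1 / r.toReal)) ?_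
      (fun n => Real.rpow_nonneg (abs_nonneg _) _) ?_
    · intro ε hε
      refine ⟨(ε / C') ^ r.toReal, by positivity, fun t ht0 ht => ?_⟩
      have h1 : t ^ (1 / r.toReal) < ((ε / C') ^ r.toReal) ^ (1 / r.toReal) :=
        Real.rpow_lt_rpow ht0 ht (by positivity)
      rw [← Real.rpow_mul (by positivity), mul_one_div, div_self hrpos.ne', Real.rpow_one,
        lt_div_iff₀ hC'] at h1
      change C' * t ^ (1 / r.toReal) < ε
      linarith
    · intro F
      refine (L.section_le_NN hS y F).trans ?_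
      have h1 := hC'x (fun n : F => y n)
      refine h1.trans (le_of_eq ?_)
      change C' * (∑ i : F, |y i| ^ r.toReal) ^ (1 / r.toReal) = _
      rw [Finset.sum_coe_sort F (fun n => |y n| ^ r.toReal)]
  rcases hs0.eq_or_lt with h0 | hpos
  · -- s = 0, p = ∞
    refine ⟨⊤, le_top, ?_, ?_⟩
    · intro x
      obtain ⟨δ, D, hδ, hδn, _⟩ := L.semi_normalized hS
      apply memℓp_infty
      refine ⟨‖x‖ / δ, ?_⟩
      rintro _ ⟨n, rfl⟩
      change |L.coord x n| ≤ ‖x‖ / δ
      rw [le_div_iff₀ hδ]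
      exact (mul_le_mul_of_nonneg_left (hδn n) (abs_nonneg _)).trans (L.coord_bound x n)
    · intro r hr1' hr2 y hy
      rcases hr2 with h | h
      · apply hr r hr1' h.ne _ y hy
        rw [← h0]
        have : 0 < r.toReal := ENNReal.toReal_pos (by
          intro h'; rw [h'] at hr1'; simp at hr1') h.ne
        positivity
      · rw [h] at hy; exact hr1 y hy
  · -- s > 0
    have hp1 : (1:ENNReal) ≤ ENNReal.ofReal (1 / s) := by
      rw [← ENNReal.ofReal_one]
      apply ENNReal.ofReal_le_ofReal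
      rw [one_div]
      exact (one_le_inv₀ hpos).mpr hs1
    have htoReal : (ENNReal.ofReal (1 / s)).toReal = 1 / s := ENNReal.toReal_ofReal (by positivity)
    refine ⟨ENNReal.ofReal (1 / s), hp1, ?_, ?_⟩
    · intro x
      apply memℓp_gen
      rw [htoReal]
      refine summable_of_sum_le (fun n => Real.rpow_nonneg (norm_nonneg _) _) (c := (K * (M * ‖x‖)) ^ (1 / s)) ?_
      intro F
      have h1 := S.lp_le hK hTB hpos hs1 hlow (fun n : F => L.coord x n)
      rw [Finset.sum_coe_sort F (fun n => |L.coord x n| ^ (1 / s))] at h1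
      have h2 : S.N (fun n : F => L.coord x n) ≤ M * ‖x‖ := by
        have h3 := hMN (fun n : F => L.coord x n) (fun n => (n : ℕ)) Subtype.val_injective
        rw [Finset.sum_coe_sort F (fun n => L.coord x n • L.unit n)] at h3
        exact h3.trans (mul_le_mul_of_nonneg_left (L.finite_part_le x F) hM.le)
      have h4 : (∑ n ∈ F, |L.coord x n| ^ (1 / s)) ^ s ≤ K * (M * ‖x‖) :=
        h1.trans (mul_le_mul_of_nonneg_left h2 hK.le)
      have hsum0 : 0 ≤ ∑ n ∈ F, |L.coord x n| ^ (1 / s) :=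
        Finset.sum_nonneg (fun n _ => Real.rpow_nonneg (abs_nonneg _) _)
      calc ∑ n ∈ F, ‖L.coord x n‖ ^ (1 / s) = ∑ n ∈ F, |L.coord x n| ^ (1 / s) := rfl
        _ = ((∑ n ∈ F, |L.coord x n| ^ (1 / s)) ^ s) ^ (1 / s) := by
            rw [← Real.rpow_mul hsum0, mul_one_div, div_self hpos.ne', Real.rpow_one]
        _ ≤ _ := Real.rpow_le_rpow (Real.rpow_nonneg hsum0 _) h4 (by positivity)
    · intro r hr1' hr2 y hy
      rcases hr2 with h | h
      · have hrt : r ≠ ⊤ := (h.trans_le le_top).ne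
        apply hr r hr1' hrt _ y hy
        have hrpos : 0 < r.toReal := ENNReal.toReal_pos (by
          intro h'; rw [h'] at hr1'; simp at hr1') hrt
        have h5 : r.toReal < 1 / s := by
          rw [← htoReal]
          exact (ENNReal.toReal_lt_toReal hrt ENNReal.ofReal_ne_top).mpr h
        rw [lt_div_iff₀ hrpos]
        rw [lt_div_iff₀ hpos] at h5
        linarith
      · rw [h] at hy; exact hr1 y hy

end AtomicLattice

end Pool.Agent.helper51DH
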