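import Pool.Agent.helper51_dh.Symm

open Finset Filter Topology

namespace Pool.Agent.helper51DH

namespace AtomicLattice

variable {E : Type*} [NormedAddCommGroup E] [NormedSpace ℝ E] (L : AtomicLattice E)
variable [CompleteSpace E]

instance embNonempty (ι : Type) [Fintype ι] : Nonempty (ι ↪ ℕ) :=
  ⟨(Fintype.equivFin ι).toEmbedding.trans Fin.valEmbedding⟩

lemma symm_gen (hS : L.IsSymmetric) : ∃ M : ℝ, 0 < M ∧ ∀ {ι : Type} [Fintype ι] (x : ι → ℝ)
    (τ ρ : ι ↪ ℕ), ‖∑ i, x i • L.unit (ρ i)‖ ≤ M * ‖∑ i, x i • L.unit (τ i)‖ := by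
  classical
  obtain ⟨M, hM, hMs⟩ := L.symm_const hS
  refine ⟨M, hM, ?_⟩
  intro ι _ x τ ρ
  have h := hMs (univ.map τ) (Function.extend τ x 0) (Function.extend τ ρ id) (by
    intro m hm n hn hmn
    simp only [coe_map, coe_univ, Set.image_univ, Set.mem_range] at hm hn
    obtain ⟨i, rfl⟩ := hm
    obtain ⟨j, rfl⟩ := hn
    rw [τ.injective.extend_apply, τ.injective.extend_apply] at hmn
    rw [ρ.injective hmn])
  rw [Finset.sum_map, Finset.sum_map] at h
  simp only [τ.injective.extend_apply] at h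
  exact h

/-- symmetrised norm of a finite vector -/
noncomputable def NN {ι : Type} [Fintype ι] (x : ι → ℝ) : ℝ :=
  ⨆ τ : ι ↪ ℕ, ‖∑ i, x i • L.unit (τ i)‖

lemma NN_bdd (hS : L.IsSymmetric) {ι : Type} [Fintype ι] (x : ι → ℝ) :
    BddAbove (Set.range (fun τ : ι ↪ ℕ => ‖∑ i, x i • L.unit (τ i)‖)) := by
  obtain ⟨M, _, hM⟩ := L.symm_gen hS
  obtain ⟨τ⟩ := embNonempty ι
  refine ⟨M * ‖∑ i, x i • L.unit (τ i)‖, ?_⟩
  rintro _ ⟨ρ, rfl⟩
  exact hM x τ ρ

lemma le_NN (hS : L.IsSymmetric) {ι : Type} [Fintype ι] (x : ι → ℝ) (τ : ι ↪ ℕ) :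
    ‖∑ i, x i • L.unit (τ i)‖ ≤ L.NN x :=
  le_ciSup (L.NN_bdd hS x) τ

lemma NN_mono (hS : L.IsSymmetric) {ι κ : Type} [Fintype ι] [Fintype κ] (g : ι → κ) (x : ι → ℝ)
    (y : κ → ℝ) (hg : ∀ i j, x i ≠ 0 → x j ≠ 0 → g i = g j → i = j)
    (hxy : ∀ i, |x i| ≤ |y (g i)|) : L.NN x ≤ L.NN y := by
  classical
  apply ciSup_le
  intro τ
  -- build an embedding of κ
  set B : ℕ := univ.sup τ + 1 with hB
  have hτB : ∀ i, τ i < B := fun i => Nat.lt_succ_of_le (Finset.le_sup (f := τ) (mem_univ i))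
  set ρ : κ → ℕ := fun k => if h : ∃ i, x i ≠ 0 ∧ g i = k then τ h.choose
    else B + (Fintype.equivFin κ k : ℕ) with hρ
  have hρg : ∀ i, x i ≠ 0 → ρ (g i) = τ i := by
    intro i hi
    have h : ∃ j, x j ≠ 0 ∧ g j = g i := ⟨i, hi, rfl⟩
    have h1 : h.choose = i := hg _ _ h.choose_spec.1 hi h.choose_spec.2
    simp only [hρ, dif_pos h, h1]
  have hρinj : Function.Injective ρ := by
    intro k l hkl
    by_cases hk : ∃ i, x i ≠ 0 ∧ g i = k
    · obtain ⟨i, hi, rfl⟩ := hk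
      by_cases hl : ∃ i, x i ≠ 0 ∧ g i = l
      · obtain ⟨j, hj, rfl⟩ := hl
        rw [hρg i hi, hρg j hj] at hkl
        rw [τ.injective hkl]
      · rw [hρg i hi] at hkl
        simp only [hρ, dif_neg hl] at hkl
        have := hτB i
        omega
    · by_cases hl : ∃ i, x i ≠ 0 ∧ g i = l
      · obtain ⟨j, hj, rfl⟩ := hl
        rw [hρg j hj] at hkl
        simp only [hρ, dif_neg hk] at hkl
        have := hτB j
        omega
      · simp only [hρ, dif_neg hk, dif_neg hl] at hkl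
        have h1 : (Fintype.equivFin κ k : ℕ) = (Fintype.equivFin κ l : ℕ) := by omega
        exact (Fintype.equivFin κ).injective (Fin.ext h1)
  refine le_trans ?_ (L.le_NN hS y ⟨ρ, hρinj⟩)
  apply L.unit_comb_le univ univ x y τ ρ g τ.injective.injOn hρinj.injOn
  intro i _ hi
  exact ⟨mem_univ _, hρg i hi, hxy i⟩

/-- the symmetric norm family attached to `E` -/
noncomputable def toSNorm (hS : L.IsSymmetric) : SNorm where
  N := fun x => L.NN x
  mono := fun g x y hg hxy => L.NN_mono hS g x y hg hxy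
  add_le := by
    intro ι _ x y
    apply ciSup_le
    intro τ
    have h1 : ∑ i, (x i + y i) • L.unit (τ i) = ∑ i, x i • L.unit (τ i) + ∑ i, y i • L.unit (τ i) := by
      simp_rw [add_smul]; rw [Finset.sum_add_distrib]
    rw [h1]
    exact (norm_add_le _ _).trans (add_le_add (L.le_NN hS x τ) (L.le_NN hS y τ))
  smul_eq := by
    intro ι _ c x
    unfold NN
    rw [Real.mul_iSup_of_nonneg (abs_nonneg c)]
    congr 1
    funext τ
    have h1 : ∑ i, (c * x i) • L.unit (τ i) = c • ∑ i, x i • L.unit (τ i) := by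
      rw [Finset.smul_sum]
      exact Finset.sum_congr rfl (fun i _ => by rw [smul_smul])
    rw [h1, norm_smul, Real.norm_eq_abs]
  unit_pos := by
    obtain ⟨τ⟩ := embNonempty Unit
    refine lt_of_lt_of_le ?_ (L.le_NN hS (fun _ => 1) τ)
    simp [L.unit_ne]

lemma NN_le (hS : L.IsSymmetric) : ∃ M : ℝ, 0 < M ∧ ∀ {ι : Type} [Fintype ι] (x : ι → ℝ)
    (τ : ι → ℕ), Function.Injective τ → L.NN x ≤ M * ‖∑ i, x i • L.unit (τ i)‖ := by
  obtain ⟨M, hM, h⟩ := L.symm_gen hS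
  refine ⟨M, hM, ?_⟩
  intro ι _ x τ hτ
  apply ciSup_le
  intro ρ
  exact h x ⟨τ, hτ⟩ ρ

end AtomicLattice

end Pool.Agent.helper51DH
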