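import Pool.Agent.helper51_dh.Core

open Finset Filter Topology

namespace Pool.Agent.helper51DH

lemma growth {A B C : ℝ} {D : ℕ} (hA : 0 ≤ A) (hB : 0 ≤ B) (hC : 0 < C)
    (h : ∀ n : ℕ, A ^ n ≤ C * ((n : ℝ) + 1) ^ D * B ^ n) : A ≤ B := by
  by_contra hlt
  push Not at hlt
  have hA' : 0 < A := lt_of_le_of_lt hB hlt
  rcases hB.eq_or_lt with hB0 | hB0
  · have := h 1
    rw [← hB0] at this
    simp at this
    linarith
  have hr : 1 < A / B := by rwa [one_lt_div hB0]
  have ht := (tendsto_pow_const_div_const_pow_of_one_lt D hr).comp (tendsto_add_atTop_nat 1)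
  have hev := ht.eventually (gt_mem_nhds (show (0:ℝ) < 1 / (C * (A / B)) by positivity))
  obtain ⟨n, hn⟩ := hev.exists
  simp only [Function.comp_apply, Nat.cast_add, Nat.cast_one] at hn
  have h1 : (A / B) ^ n ≤ C * ((n : ℝ) + 1) ^ D := by
    rw [div_pow, div_le_iff₀ (by positivity)]
    exact h n
  rw [div_lt_div_iff₀ (by positivity) (by positivity)] at hn
  have h2 : (A / B) ^ (n+1) = (A / B) ^ n * (A / B) := pow_succ _ _
  rw [h2] at hn
  have h3 : (A / B) ^ n * (A / B) ≤ C * ((n : ℝ) + 1) ^ D * (A / B) :=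
    mul_le_mul_of_nonneg_right h1 (by positivity)
  nlinarith

/-- type counting -/
lemma exists_type {ι : Type} [Fintype ι] [DecidableEq ι] (f : ι → ℝ) (n : ℕ) :
    ∃ c : ι → ℕ, (∑ i, f i) ^ n ≤ ((n : ℝ) + 1) ^ (Fintype.card ι) *
      (((univ.filter (fun w : Fin n → ι => ∀ i, (univ.filter (fun j => w j = i)).card = c i)).card : ℝ)
        * ∏ i, f i ^ c i) := by
  classical
  set T : Finset (ι → ℕ) := Fintype.piFinset (fun _ => range (n+1)) with hT
  have hTc : T.card = (n+1) ^ (Fintype.card ι) := by simp [hT]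
  set F : (ι → ℕ) → Finset (Fin n → ι) := fun c =>
    univ.filter (fun w : Fin n → ι => ∀ i, (univ.filter (fun j => w j = i)).card = c i) with hF
  have key : (∑ i, f i) ^ n = ∑ c ∈ T, ((F c).card : ℝ) * ∏ i, f i ^ c i := by
    rw [Fintype.sum_pow]
    have hmaps : ∀ w ∈ (univ : Finset (Fin n → ι)), (fun i => (univ.filter (fun j => w j = i)).card) ∈ T := by
      intro w _
      rw [hT, Fintype.mem_piFinset]
      intro i
      rw [mem_range]
      have : (univ.filter (fun j => w j = i)).card ≤ (univ : Finset (Fin n)).card := card_filter_le _ _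
      simp at this
      omega
    rw [← Finset.sum_fiberwise_of_maps_to hmaps]
    apply Finset.sum_congr rfl
    intro c _
    have : ∀ w ∈ univ.filter (fun w : Fin n → ι => (fun i => (univ.filter (fun j => w j = i)).card) = c),
        ∏ j, f (w j) = ∏ i, f i ^ c i := by
      intro w hw
      rw [mem_filter] at hw
      have hw2 := hw.2
      rw [Finset.prod_comp f w]
      have himg : ∏ b ∈ univ.image w, f b ^ (univ.filter (fun a => w a = b)).card =
          ∏ b, f b ^ (univ.filter (fun a => w a = b)).card := by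
        apply Finset.prod_subset (subset_univ _)
        intro b _ hb
        have : (univ.filter (fun a => w a = b)) = ∅ := by
          rw [Finset.filter_eq_empty_iff]
          intro a _ ha
          exact hb (by rw [mem_image]; exact ⟨a, mem_univ _, ha⟩)
        rw [this]; simp
      rw [himg]
      apply Finset.prod_congr rfl
      intro b _
      rw [← congrFun hw2 b]
    rw [Finset.sum_congr rfl this, Finset.sum_const, nsmul_eq_mul]
    congr 3
    apply Finset.filter_congr
    intro w _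
    constructor
    · intro h i; exact congrFun h i
    · intro h; funext i; exact h i
  have hne : T.Nonempty := by
    rw [← Finset.card_pos, hTc]; positivity
  have hsum : ∑ c ∈ T, (∑ i, f i) ^ n / ((n : ℝ) + 1) ^ (Fintype.card ι) ≤
      ∑ c ∈ T, ((F c).card : ℝ) * ∏ i, f i ^ c i := by
    rw [← key, Finset.sum_const, hTc, nsmul_eq_mul]
    push_cast
    rw [mul_div_assoc', mul_comm, mul_div_assoc, div_self (by positivity), mul_one]
  obtain ⟨c, _, hc⟩ := Finset.exists_le_of_sum_le hne hsum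
  refine ⟨c, ?_⟩
  rw [div_le_iff₀ (by positivity)] at hc
  calc _ ≤ _ := hc
    _ = _ := by rw [hF]; ring

lemma pw_type {ι : Type} [Fintype ι] [DecidableEq ι] (x : ι → ℝ) (n : ℕ) (c : ι → ℕ)
    (w : Fin n → ι) (hw : ∀ i, (univ.filter (fun j => w j = i)).card = c i) :
    |SNorm.pw x n w| = ∏ i, |x i| ^ c i := by
  classical
  unfold SNorm.pw
  rw [Finset.abs_prod, Finset.prod_comp (fun i => |x i|) w]
  have himg : ∏ b ∈ univ.image w, |x b| ^ (univ.filter (fun a => w a = b)).card =
      ∏ b, |x b| ^ (univ.filter (fun a => w a = b)).card := by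
    apply Finset.prod_subset (subset_univ _)
    intro b _ hb
    have : (univ.filter (fun a => w a = b)) = ∅ := by
      rw [Finset.filter_eq_empty_iff]
      intro a _ ha
      exact hb (by rw [mem_image]; exact ⟨a, mem_univ _, ha⟩)
    rw [this]; simp
  rw [himg]
  apply Finset.prod_congr rfl
  intro b _
  rw [hw b]

namespace SNorm

variable (S : SNorm)

lemma lam_le_nat (n : ℕ) : S.lam n ≤ S.lam 1 * n := by
  have := S.le_l1 (fun _ : Fin n => (1:ℝ))
  simpa [lam] using this

theorem exists_index {K : ℝ} (hK : 0 < K) (h : S.TB K) :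
    ∃ s : ℝ, 0 ≤ s ∧ s ≤ 1 ∧ (∀ n : ℕ, 1 ≤ n → (n : ℝ) ^ s ≤ K * S.lam n) ∧
      (∀ s' : ℝ, s < s' → ∃ C : ℝ, 0 < C ∧ ∀ n : ℕ, 1 ≤ n → S.lam n ≤ C * (n : ℝ) ^ s') := by
  set L : ℕ → ℝ := fun n => K * S.lam n with hL
  have hL1 : 1 ≤ L 1 := by
    have h1 := S.lam_mul_le h 1 1
    have h2 := S.lam_one_pos
    simp only [mul_one] at h1
    have : S.lam 1 * 1 ≤ S.lam 1 * (K * S.lam 1) := by nlinarith
    exact le_of_mul_le_mul_left this h2
  have hLmono : ∀ m n, m ≤ n → L m ≤ L n := fun m n hmn =>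
    mul_le_mul_of_nonneg_left (S.lam_mono hmn) hK.le
  have hLone : ∀ n, 1 ≤ n → 1 ≤ L n := fun n hn => hL1.trans (hLmono 1 n hn)
  have hLmul : ∀ m n, L (m * n) ≤ L m * L n := by
    intro m n
    have := S.lam_mul_le h m n
    calc K * S.lam (m * n) ≤ K * (K * S.lam m * S.lam n) := mul_le_mul_of_nonneg_left this hK.le
      _ = _ := by simp only [hL]; ring
  have hLpow : ∀ n, 1 ≤ n → ∀ k : ℕ, L (n ^ (k+1)) ≤ L n ^ (k+1) := by
    intro n hn k
    induction k with
    | zero => simp
    | succ k ih =>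
      calc L (n ^ (k+1+1)) = L (n ^ (k+1) * n) := by rw [pow_succ]
        _ ≤ L (n ^ (k+1)) * L n := hLmul _ _
        _ ≤ L n ^ (k+1) * L n := mul_le_mul_of_nonneg_right ih (by linarith [hLone n hn])
        _ = _ := by rw [pow_succ (L n) (k+1)]
  set Q : Set ℝ := {q | ∃ n : ℕ, 2 ≤ n ∧ q = Real.log (L n) / Real.log n} with hQ
  have hQne : Q.Nonempty := ⟨_, 2, le_rfl, rfl⟩
  have hQ0 : ∀ q ∈ Q, 0 ≤ q := by
    rintro q ⟨n, hn, rfl⟩
    apply div_nonneg
    · exact Real.log_nonneg (hLone n (by omega))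
    · exact Real.log_nonneg (by exact_mod_cast (by omega : 1 ≤ n))
  have hQbdd : BddBelow Q := ⟨0, fun q hq => hQ0 q hq⟩
  set s := sInf Q with hs
  have hs0 : 0 ≤ s := le_csInf hQne hQ0
  have hlow : ∀ n : ℕ, 1 ≤ n → (n : ℝ) ^ s ≤ K * S.lam n := by
    intro n hn
    rcases eq_or_lt_of_le hn with h1 | h2
    · rw [← h1]; simpa using hL1
    · have h2' : 2 ≤ n := h2
      have hnr : (1:ℝ) < n := by exact_mod_cast h2
      have hmem : Real.log (L n) / Real.log n ∈ Q := ⟨n, h2', rfl⟩
      have hle : s ≤ Real.log (L n) / Real.log n := csInf_le hQbdd hmem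
      have hlog : 0 < Real.log n := Real.log_pos hnr
      rw [le_div_iff₀ hlog] at hle
      have hLn : 0 < L n := by linarith [hLone n hn]
      rw [Real.rpow_def_of_pos (by linarith)]
      calc Real.exp (Real.log n * s) ≤ Real.exp (Real.log (L n)) := by
            apply Real.exp_le_exp.mpr; linarith
        _ = L n := Real.exp_log hLn
  have hup : ∀ s' : ℝ, s < s' → ∃ C : ℝ, 0 < C ∧ ∀ n : ℕ, 1 ≤ n → S.lam n ≤ C * (n : ℝ) ^ s' := by
    intro s' hs'
    obtain ⟨q, ⟨m, hm2, rfl⟩, hq⟩ := exists_lt_of_csInf_lt hQne hs'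
    have hmr : (1:ℝ) < m := by exact_mod_cast (by omega : 1 < m)
    have hlog : 0 < Real.log m := Real.log_pos hmr
    have hs'0 : 0 ≤ s' := hs0.trans hs'.le
    have hLm : 0 < L m := by linarith [hLone m (by omega)]
    have hLm2 : L m ≤ (m : ℝ) ^ s' := by
      rw [div_lt_iff₀ hlog] at hq
      rw [Real.rpow_def_of_pos (by linarith)]
      calc L m = Real.exp (Real.log (L m)) := (Real.exp_log hLm).symm
        _ ≤ _ := by apply Real.exp_le_exp.mpr; linarith
    refine ⟨(m : ℝ) ^ s' / K, by positivity, ?_⟩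
    intro n hn
    have hlt : n < m ^ (Nat.log m n + 1) := Nat.lt_pow_succ_log_self (by omega) n
    have hle : m ^ (Nat.log m n) ≤ n := Nat.pow_log_le_self m (by omega)
    have h1 : L n ≤ (m : ℝ) ^ s' * (n : ℝ) ^ s' := by
      calc L n ≤ L (m ^ (Nat.log m n + 1)) := hLmono _ _ hlt.le
        _ ≤ L m ^ (Nat.log m n + 1) := hLpow m (by omega) _
        _ ≤ ((m : ℝ) ^ s') ^ (Nat.log m n + 1) := pow_le_pow_left₀ hLm.le hLm2 _
        _ = ((m : ℝ) ^ s') * ((m : ℝ) ^ s') ^ (Nat.log m n) := by rw [pow_succ]; ring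
        _ = ((m : ℝ) ^ s') * (((m : ℝ) ^ (Nat.log m n)) ^ s') := by
            congr 1
            rw [← Real.rpow_natCast ((m:ℝ)^s'), ← Real.rpow_mul (by positivity),
              mul_comm s', Real.rpow_mul (by positivity), Real.rpow_natCast]
        _ ≤ (m : ℝ) ^ s' * (n : ℝ) ^ s' := by
            apply mul_le_mul_of_nonneg_left _ (by positivity)
            apply Real.rpow_le_rpow (by positivity) _ hs'0
            exact_mod_cast hle
    have h2 : S.lam n = L n / K := by simp only [hL]; field_simp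
    rw [h2, div_le_iff₀ hK]
    calc L n ≤ _ := h1
      _ = (m : ℝ) ^ s' / K * (n : ℝ) ^ s' * K := by field_simp
  have hs1 : s ≤ 1 := by
    by_contra hlt
    push Not at hlt
    -- n^s ≤ K lam 1 n for all n
    have hall : ∀ n : ℕ, 1 ≤ n → (n : ℝ) ^ (s - 1) ≤ K * S.lam 1 := by
      intro n hn
      have hn' : (0:ℝ) < n := by exact_mod_cast hn
      have h1 := hlow n hn
      have h2 := S.lam_le_nat n
      have h3 : (n : ℝ) ^ s = (n : ℝ) ^ (s-1) * n := by
        rw [← Real.rpow_add_one hn'.ne']; ring_nf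
      rw [h3] at h1
      have h4 : (n : ℝ) ^ (s-1) * n ≤ (K * S.lam 1) * n := by nlinarith
      exact le_of_mul_le_mul_right h4 hn'
    have ht : Tendsto (fun n : ℕ => (n : ℝ) ^ (s-1)) atTop atTop :=
      (tendsto_rpow_atTop (by linarith)).comp tendsto_natCast_atTop_atTop
    obtain ⟨n, hn1, hn2⟩ := ((ht.eventually_gt_atTop (K * S.lam 1)).and
      (eventually_ge_atTop 1)).exists
    exact absurd (hall n hn2) (not_le.mpr hn1)
  exact ⟨s, hs0, hs1, hlow, hup⟩

end SNorm

end Pool.Agent.helper51DH
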