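import Pool.Agent.helper51_dh.Sandwich

open Finset Filter Topology

namespace Pool.Agent.helper51DH

/-- `E` is (represented as) a Banach lattice of real sequences with the coordinatewise order,
whose unit vectors form a Schauder basis: `coord` embeds `E` linearly into the real sequences,
`E` contains the modulus of each of its elements, the norm is a lattice norm for the
coordinatewise order, the unit vectors belong to `E`, and each element of `E` is the sum of its
expansion along them. Completeness of `E` is a separate assumption. -/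
structure AtomicLattice (E : Type*) [NormedAddCommGroup E] [NormedSpace ℝ E] where
  coord : E →ₗ[ℝ] (ℕ → ℝ)
  coord_injective : Function.Injective coord
  exists_abs : ∀ x : E, ∃ y : E, ∀ n, coord y n = |coord x n|
  norm_le_norm : ∀ x y : E, (∀ n, |coord x n| ≤ |coord y n|) → ‖x‖ ≤ ‖y‖
  unit : ℕ → E
  coord_unit : ∀ n m, coord (unit n) m = if m = n then 1 else 0
  hasBasis : ∀ x : E, Tendsto (fun k => ∑ n ∈ range k, coord x n • unit n) atTop (𝓝 x)

section Defs

variable {E : Type*} [NormedAddCommGroup E] [NormedSpace ℝ E]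

/-- the series `∑ a k • x k` converges in `E` -/
def SeriesConverges (x : ℕ → E) (a : ℕ → ℝ) : Prop :=
  ∃ l : E, Tendsto (fun m => ∑ k ∈ range m, a k • x k) atTop (𝓝 l)

/-- equivalence of sequences: the same series converge -/
def EquivSeq (x y : ℕ → E) : Prop := ∀ a : ℕ → ℝ, SeriesConverges x a ↔ SeriesConverges y a

namespace AtomicLattice

/-- pairwise disjoint sequences -/
def DisjointSeq (L : AtomicLattice E) (x : ℕ → E) : Prop :=
  ∀ i j, i ≠ j → ∀ n, L.coord (x i) n = 0 ∨ L.coord (x j) n = 0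

/-- the unit vector basis is symmetric -/
def IsSymmetric (L : AtomicLattice E) : Prop :=
  ∀ π : Equiv.Perm ℕ, EquivSeq (fun n => L.unit (π n)) L.unit

/-- disjoint homogeneity -/
def DH (L : AtomicLattice E) : Prop :=
  ∀ x y : ℕ → E, (∀ n, ‖x n‖ = 1) → (∀ n, ‖y n‖ = 1) → L.DisjointSeq x → L.DisjointSeq y →
    ∃ φ ψ : ℕ → ℕ, StrictMono φ ∧ StrictMono ψ ∧ EquivSeq (fun k => x (φ k)) (fun k => y (ψ k))

end AtomicLattice

end Defs

namespace AtomicLattice

variable {E : Type*} [NormedAddCommGroup E] [NormedSpace ℝ E] (L : AtomicLattice E)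

lemma coord_comb (s : Finset ℕ) (a : ℕ → ℝ) (x : ℕ → E) (n : ℕ) :
    L.coord (∑ k ∈ s, a k • x k) n = ∑ k ∈ s, a k * L.coord (x k) n := by
  simp [map_sum, map_smul]

lemma abs_coord_comb {x : ℕ → E} (hx : L.DisjointSeq x) (s : Finset ℕ) (a : ℕ → ℝ) (n : ℕ) :
    |L.coord (∑ k ∈ s, a k • x k) n| = ∑ k ∈ s, |a k| * |L.coord (x k) n| := by
  rw [L.coord_comb]
  by_cases h : ∃ k ∈ s, L.coord (x k) n ≠ 0
  · obtain ⟨k, hk, hne⟩ := h
    have hz : ∀ j ∈ s, j ≠ k → L.coord (x j) n = 0 := by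
      intro j _ hj
      rcases hx j k hj n with h | h
      · exact h
      · exact absurd h hne
    rw [Finset.sum_eq_single_of_mem k hk (fun j hj hjk => by rw [hz j hj hjk, mul_zero]),
      Finset.sum_eq_single_of_mem k hk (fun j hj hjk => by rw [hz j hj hjk, abs_zero, mul_zero]),
      abs_mul]
  · push Not at h
    rw [Finset.sum_eq_zero (fun j hj => by rw [h j hj, mul_zero]),
      Finset.sum_eq_zero (fun j hj => by rw [h j hj, abs_zero, mul_zero]), abs_zero]

lemma comb_mono {x : ℕ → E} (hx : L.DisjointSeq x) {s t : Finset ℕ} {a b : ℕ → ℝ}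
    (hst : s ⊆ t) (hab : ∀ k ∈ s, |a k| ≤ |b k|) :
    ‖∑ k ∈ s, a k • x k‖ ≤ ‖∑ k ∈ t, b k • x k‖ := by
  apply L.norm_le_norm
  intro n
  rw [L.abs_coord_comb hx, L.abs_coord_comb hx]
  calc ∑ k ∈ s, |a k| * |L.coord (x k) n| ≤ ∑ k ∈ s, |b k| * |L.coord (x k) n| :=
        Finset.sum_le_sum (fun k hk => mul_le_mul_of_nonneg_right (hab k hk) (abs_nonneg _))
    _ ≤ _ := Finset.sum_le_sum_of_subset_of_nonneg hst (fun k _ _ => by positivity)

lemma comb_single_le {x : ℕ → E} (hx : L.DisjointSeq x) {s : Finset ℕ} {a : ℕ → ℝ} {k : ℕ}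
    (hk : k ∈ s) : |a k| * ‖x k‖ ≤ ‖∑ k ∈ s, a k • x k‖ := by
  have := L.comb_mono hx (s := {k}) (t := s) (a := a) (b := a) (by simpa using hk) (fun _ _ => le_rfl)
  rw [Finset.sum_singleton, norm_smul, Real.norm_eq_abs] at this
  exact this

variable [CompleteSpace E]

/-- gluing countably many finite combinations -/
lemma glue {y : ℕ → E} (hy : L.DisjointSeq y) (hy0 : ∀ k, y k ≠ 0) (s : ℕ → Finset ℕ)
    (b : ℕ → ℕ → ℝ) (hb0 : ∀ j k, 0 ≤ b j k) (hbs : ∀ j k, k ∉ s j → b j k = 0)
    (hb1 : ∀ j, ‖∑ k ∈ s j, b j k • y k‖ ≤ 1) :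
    ∃ a : ℕ → ℝ, SeriesConverges y a ∧ ∀ j k, (1/2:ℝ) ^ j * b j k ≤ a k := by
  have hbk : ∀ j k, b j k ≤ ‖y k‖⁻¹ := by
    intro j k
    by_cases hk : k ∈ s j
    · have h1 := L.comb_single_le hy (a := b j) hk
      rw [abs_of_nonneg (hb0 j k)] at h1
      have h2 : 0 < ‖y k‖ := norm_pos_iff.mpr (hy0 k)
      rw [← one_div, le_div_iff₀ h2]
      exact h1.trans (hb1 j)
    · rw [hbs j k hk]; positivity
  have hsum : ∀ k, Summable (fun j => (1/2:ℝ) ^ j * b j k) := by
    intro k
    refine Summable.of_nonneg_of_le (fun j => mul_nonneg (by positivity) (hb0 j k))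
      (fun j => mul_le_mul_of_nonneg_left (hbk j k) (by positivity)) ?_
    exact (summable_geometric_of_lt_one (by norm_num) (by norm_num)).mul_right _
  set a : ℕ → ℝ := fun k => ∑' j, (1/2:ℝ) ^ j * b j k with ha
  have ha0 : ∀ k, 0 ≤ a k := fun k => tsum_nonneg (fun j => mul_nonneg (by positivity) (hb0 j k))
  refine ⟨a, ?_, fun j k => (hsum k).le_tsum j (fun i _ => mul_nonneg (by positivity) (hb0 i k))⟩
  -- tail estimate
  have htail : ∀ (J : ℕ) (t : Finset ℕ), (∀ j < J, ∀ k ∈ t, b j k = 0) →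
      ‖∑ k ∈ t, a k • y k‖ ≤ 2 * (1/2:ℝ) ^ J := by
    intro J t ht
    have hlim : Tendsto (fun R => ‖∑ k ∈ t, (∑ j ∈ range R, (1/2:ℝ) ^ j * b j k) • y k‖) atTop
        (𝓝 ‖∑ k ∈ t, a k • y k‖) := by
      apply Tendsto.norm
      apply tendsto_finsetSum
      intro k _
      exact ((hsum k).hasSum.tendsto_sum_nat).smul_const _
    refine le_of_tendsto hlim (Eventually.of_forall (fun R => ?_))
    have h1 : ∑ k ∈ t, (∑ j ∈ range R, (1/2:ℝ) ^ j * b j k) • y k
        = ∑ j ∈ range R, (1/2:ℝ) ^ j • ∑ k ∈ t, b j k • y k := by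
      simp_rw [Finset.sum_smul, Finset.smul_sum]
      rw [Finset.sum_comm]
      simp_rw [smul_smul]
    rw [h1]
    calc ‖∑ j ∈ range R, (1/2:ℝ) ^ j • ∑ k ∈ t, b j k • y k‖
        ≤ ∑ j ∈ range R, ‖(1/2:ℝ) ^ j • ∑ k ∈ t, b j k • y k‖ := norm_sum_le _ _
      _ ≤ ∑ j ∈ range R, (if j < J then 0 else (1/2:ℝ) ^ j) := by
          apply Finset.sum_le_sum
          intro j _
          split_ifs with hj
          · have : ∑ k ∈ t, b j k • y k = 0 :=
              Finset.sum_eq_zero (fun k hk => by rw [ht j hj k hk, zero_smul])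
            rw [this]; simp
          · rw [norm_smul, Real.norm_eq_abs, abs_of_nonneg (by positivity)]
            have h2 : ‖∑ k ∈ t, b j k • y k‖ ≤ 1 := by
              have h3 : ‖∑ k ∈ t, b j k • y k‖ ≤ ‖∑ k ∈ t ∪ s j, b j k • y k‖ :=
                L.comb_mono hy subset_union_left (fun _ _ => le_rfl)
              have h4 : ∑ k ∈ t ∪ s j, b j k • y k = ∑ k ∈ s j, b j k • y k := by
                symm
                apply Finset.sum_subset subset_union_right
                intro k _ hk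
                rw [hbs j k hk, zero_smul]
              rw [h4] at h3
              exact h3.trans (hb1 j)
            calc (1/2:ℝ) ^ j * ‖∑ k ∈ t, b j k • y k‖ ≤ (1/2:ℝ) ^ j * 1 :=
                  mul_le_mul_of_nonneg_left h2 (by positivity)
              _ = _ := mul_one _
      _ ≤ 2 * (1/2:ℝ) ^ J := by
          have hs1 : Summable (fun i => (1/2:ℝ) ^ (i + J)) := by
            simp_rw [pow_add]
            exact (summable_geometric_of_lt_one (by norm_num) (by norm_num)).mul_right _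
          calc ∑ j ∈ range R, (if j < J then 0 else (1/2:ℝ) ^ j)
              ≤ ∑ j ∈ range (J + R), (if j < J then 0 else (1/2:ℝ) ^ j) := by
                apply Finset.sum_le_sum_of_subset_of_nonneg
                · intro j hj; rw [mem_range] at hj ⊢; omega
                · intro j _ _; split_ifs <;> positivity
            _ = ∑ i ∈ range R, (1/2:ℝ) ^ (i + J) := by
                rw [Finset.sum_range_add]
                have e1 : ∑ j ∈ range J, (if j < J then (0:ℝ) else (1/2:ℝ) ^ j) = 0 :=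
                  Finset.sum_eq_zero (fun j hj => by rw [mem_range] at hj; simp [hj])
                rw [e1, zero_add]
                apply Finset.sum_congr rfl
                intro i _
                rw [if_neg (by omega), add_comm]
            _ ≤ ∑' i, (1/2:ℝ) ^ (i + J) := hs1.sum_le_tsum _ (fun i _ => by positivity)
            _ = 2 * (1/2:ℝ) ^ J := by
                simp_rw [pow_add]
                rw [tsum_mul_right, tsum_geometric_of_lt_one (by norm_num) (by norm_num)]
                norm_num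
  -- Cauchy
  have hcau : CauchySeq (fun m => ∑ k ∈ range m, a k • y k) := by
    rw [Metric.cauchySeq_iff']
    intro ε hε
    obtain ⟨J, hJ⟩ := exists_pow_lt_of_lt_one (show 0 < ε / 2 by positivity) (by norm_num : (1/2:ℝ) < 1)
    set N : ℕ := (Finset.range J).sup (fun j => (s j).sup id) + 1 with hN
    refine ⟨N, fun m hm => ?_⟩
    rw [dist_eq_norm, ← Finset.sum_range_add_sum_Ico _ hm, add_sub_cancel_left]
    have h1 := htail J (Ico N m) (by
      intro j hj k hk
      apply hbs
      intro hks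
      have h2 : k ≤ (s j).sup id := Finset.le_sup (f := id) hks
      have h3 : (s j).sup id ≤ (Finset.range J).sup (fun j => (s j).sup id) :=
        Finset.le_sup (f := fun j => (s j).sup id) (mem_range.mpr hj)
      rw [mem_Ico] at hk
      omega)
    linarith
  obtain ⟨l, hl⟩ := cauchySeq_tendsto_of_complete hcau
  exact ⟨l, hl⟩

/-- convergence transfer gives domination -/
lemma dominates {x y : ℕ → E} (hx : L.DisjointSeq x) (hy : L.DisjointSeq y)
    (hy0 : ∀ k, y k ≠ 0) (h : ∀ a, SeriesConverges y a → SeriesConverges x a) :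
    ∃ C : ℝ, 0 < C ∧ ∀ (s : Finset ℕ) (a : ℕ → ℝ),
      ‖∑ k ∈ s, a k • x k‖ ≤ C * ‖∑ k ∈ s, a k • y k‖ := by
  by_contra hcon
  push Not at hcon
  choose s a hsa using fun j : ℕ => hcon ((4:ℝ) ^ j) (by positivity)
  set ν : ℕ → ℝ := fun j => ‖∑ k ∈ s j, a j k • y k‖ with hν
  have hνpos : ∀ j, 0 < ν j := by
    intro j
    rcases (norm_nonneg (∑ k ∈ s j, a j k • y k)).eq_or_lt with h0 | h1
    · exfalso
      have h2 := hsa j
      rw [← h0, mul_zero] at h2
      have h3 : ∀ k ∈ s j, a j k = 0 := by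
        intro k hk
        have h4 := L.comb_single_le hy (a := a j) hk
        rw [← h0] at h4
        have h5 : 0 < ‖y k‖ := norm_pos_iff.mpr (hy0 k)
        have h6 : |a j k| ≤ 0 := by
          by_contra h7
          push Not at h7
          have := mul_pos h7 h5
          linarith
        exact abs_nonpos_iff.mp h6
      rw [Finset.sum_eq_zero (fun k hk => by rw [h3 k hk, zero_smul]), norm_zero] at h2
      exact lt_irrefl _ h2
    · exact h1
  obtain ⟨c, hc1, hc2⟩ := L.glue hy hy0 s (fun j k => if k ∈ s j then |a j k| / ν j else 0)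
    (fun j k => by
      have := (hνpos j).le
      split_ifs <;> positivity)
    (fun j k hk => by simp [hk])
    (fun j => by
      have h1 : ‖∑ k ∈ s j, (if k ∈ s j then |a j k| / ν j else 0) • y k‖
          ≤ ‖∑ k ∈ s j, (a j k / ν j) • y k‖ := by
        apply L.comb_mono hy (Finset.Subset.refl _)
        intro k hk
        rw [if_pos hk, abs_div, abs_div, abs_abs]
      refine h1.trans ?_
      have h2 : ∑ k ∈ s j, (a j k / ν j) • y k = (ν j)⁻¹ • ∑ k ∈ s j, a j k • y k := by
        rw [Finset.smul_sum]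
        apply Finset.sum_congr rfl
        intro k _
        rw [smul_smul, div_eq_inv_mul]
      rw [h2, norm_smul, Real.norm_eq_abs, abs_of_pos (inv_pos.mpr (hνpos j))]
      change (ν j)⁻¹ * ν j ≤ 1
      rw [inv_mul_cancel₀ (hνpos j).ne'])
  obtain ⟨l, hl⟩ := h c hc1
  obtain ⟨B, hB⟩ := (Metric.isBounded_range_of_tendsto _ hl).exists_norm_le
  obtain ⟨j, hj⟩ := pow_unbounded_of_one_lt B (by norm_num : (1:ℝ) < 2)
  set m : ℕ := (s j).sup id + 1 with hm
  have hsub : s j ⊆ range m := by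
    intro k hk
    rw [mem_range, hm]
    exact Nat.lt_succ_of_le (Finset.le_sup (f := id) hk)
  have h1 : ‖∑ k ∈ range m, c k • x k‖ ≤ B := hB _ ⟨m, rfl⟩
  have h2 : ‖∑ k ∈ s j, ((1/2:ℝ) ^ j * (a j k / ν j)) • x k‖ ≤ ‖∑ k ∈ range m, c k • x k‖ := by
    apply L.comb_mono hx hsub
    intro k hk
    have h3 := hc2 j k
    rw [if_pos hk] at h3
    rw [abs_mul, abs_div, abs_of_nonneg (by positivity : (0:ℝ) ≤ (1/2)^j), abs_of_pos (hνpos j)]
    exact h3.trans (le_abs_self _)
  have h4 : ‖∑ k ∈ s j, ((1/2:ℝ) ^ j * (a j k / ν j)) • x k‖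
      = (1/2:ℝ) ^ j * ((ν j)⁻¹ * ‖∑ k ∈ s j, a j k • x k‖) := by
    have h5 : ∑ k ∈ s j, ((1/2:ℝ) ^ j * (a j k / ν j)) • x k
        = ((1/2:ℝ) ^ j * (ν j)⁻¹) • ∑ k ∈ s j, a j k • x k := by
      rw [Finset.smul_sum]
      apply Finset.sum_congr rfl
      intro k _
      rw [smul_smul]
      congr 1
      rw [div_eq_mul_inv]; ring
    rw [h5, norm_smul, Real.norm_eq_abs, abs_of_nonneg (by
      have := (hνpos j).le
      positivity)]
    ring
  have h6 : (4:ℝ) ^ j ≤ (ν j)⁻¹ * ‖∑ k ∈ s j, a j k • x k‖ := by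
    rw [le_inv_mul_iff₀ (hνpos j)]
    have := hsa j
    linarith [mul_comm (ν j) ((4:ℝ)^j)]
  have h7 : (1/2:ℝ) ^ j * (4:ℝ) ^ j = 2 ^ j := by
    rw [← mul_pow]; norm_num
  have h8 : (2:ℝ) ^ j ≤ B := by
    calc (2:ℝ) ^ j = (1/2:ℝ) ^ j * (4:ℝ) ^ j := h7.symm
      _ ≤ (1/2:ℝ) ^ j * ((ν j)⁻¹ * ‖∑ k ∈ s j, a j k • x k‖) :=
          mul_le_mul_of_nonneg_left h6 (by positivity)
      _ = _ := h4.symm
      _ ≤ B := h2.trans h1
  linarith

end AtomicLattice

end Pool.Agent.helper51DH
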