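import Pool.Agent.helper51_dh.Index

open Finset Filter Topology

namespace Pool.Agent.helper51DH

namespace SNorm

variable (S : SNorm)

/-- Domination of an `ℓ_p` norm, `p = 1/s`. -/
theorem lp_le {K s : ℝ} (hK : 0 < K) (h : S.TB K) (hs : 0 < s) (hs1 : s ≤ 1)
    (hlow : ∀ n : ℕ, 1 ≤ n → (n : ℝ) ^ s ≤ K * S.lam n)
    {ι : Type} [Fintype ι] (x : ι → ℝ) :
    (∑ i, |x i| ^ (1 / s)) ^ s ≤ K * S.N x := by
  classical
  set p : ℝ := 1 / s with hp
  have hp0 : 0 < p := by positivity
  set T : ℝ := ∑ i, |x i| ^ p with hT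
  have hT0 : 0 ≤ T := Finset.sum_nonneg (fun i _ => Real.rpow_nonneg (abs_nonneg _) _)
  refine growth (C := K * S.lam 1) (D := Fintype.card ι) (Real.rpow_nonneg hT0 _)
    (mul_nonneg hK.le (S.nonneg _)) (mul_pos hK S.lam_one_pos) ?_
  intro n
  obtain ⟨c, hc⟩ := exists_type (fun i => |x i| ^ p) n
  set F := (univ.filter (fun w : Fin n → ι => ∀ i, (univ.filter (fun j => w j = i)).card = c i)) with hF
  set hh : ℝ := ∏ i, |x i| ^ c i with hhh
  have hh0 : 0 ≤ hh := Finset.prod_nonneg (fun i _ => pow_nonneg (abs_nonneg _) _)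
  have hprod : ∏ i, (|x i| ^ p) ^ c i = hh ^ p := by
    rw [hhh, ← Real.finsetProd_rpow _ _ (fun i _ => pow_nonneg (abs_nonneg _) _)]
    apply Finset.prod_congr rfl
    intro i _
    rw [← Real.rpow_natCast, ← Real.rpow_natCast, ← Real.rpow_mul (abs_nonneg _),
      ← Real.rpow_mul (abs_nonneg _), mul_comm]
  rw [hprod] at hc
  -- main estimate
  have hmain : hh * (F.card : ℝ) ^ s ≤ K * (S.lam 1 * (K * S.N x) ^ n) := by
    rcases Nat.eq_zero_or_pos F.card with h0 | h1
    · rw [h0]
      have : (0:ℝ) ^ s = 0 := Real.zero_rpow hs.ne'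
      simp only [Nat.cast_zero, this, mul_zero]
      have := S.lam_one_pos
      have := S.nonneg x
      positivity
    · calc hh * (F.card : ℝ) ^ s ≤ hh * (K * S.lam F.card) :=
            mul_le_mul_of_nonneg_left (hlow _ h1) hh0
        _ = K * (hh * S.lam F.card) := by ring
        _ ≤ K * S.N (pw x n) := by
            apply mul_le_mul_of_nonneg_left _ hK.le
            apply S.le_ind F hh (pw x n) _ hh0
            intro w hw
            rw [pw_type x n c w (by rw [hF, mem_filter] at hw; exact hw.2)]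
        _ ≤ _ := mul_le_mul_of_nonneg_left (S.N_pw_le hK.le h x n) hK.le
  have hn1 : (1:ℝ) ≤ ((n:ℝ) + 1) ^ (Fintype.card ι) := one_le_pow₀ (by linarith [Nat.cast_nonneg (α := ℝ) n])
  calc (T ^ s) ^ n = (T ^ n) ^ s := by
        rw [← Real.rpow_natCast, ← Real.rpow_natCast, ← Real.rpow_mul hT0, ← Real.rpow_mul hT0,
          mul_comm]
    _ ≤ (((n : ℝ) + 1) ^ (Fintype.card ι) * ((F.card : ℝ) * hh ^ p)) ^ s :=
        Real.rpow_le_rpow (pow_nonneg hT0 _) hc hs.le
    _ = (((n : ℝ) + 1) ^ (Fintype.card ι)) ^ s * (hh * (F.card : ℝ) ^ s) := by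
        rw [Real.mul_rpow (by positivity) (by positivity), Real.mul_rpow (by positivity) (by positivity),
          ← Real.rpow_mul hh0, hp, one_div, inv_mul_cancel₀ hs.ne', Real.rpow_one]
        ring
    _ ≤ (((n : ℝ) + 1) ^ (Fintype.card ι)) * (hh * (F.card : ℝ) ^ s) := by
        apply mul_le_mul_of_nonneg_right _ (by positivity)
        calc (((n : ℝ) + 1) ^ (Fintype.card ι)) ^ s ≤ (((n : ℝ) + 1) ^ (Fintype.card ι)) ^ (1:ℝ) :=
              Real.rpow_le_rpow_of_exponent_le hn1 hs1
          _ = _ := Real.rpow_one _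
    _ ≤ (((n : ℝ) + 1) ^ (Fintype.card ι)) * (K * (S.lam 1 * (K * S.N x) ^ n)) :=
        mul_le_mul_of_nonneg_left hmain (by positivity)
    _ = _ := by ring

/-- The norm is dominated by the `ℓ_r` norm for `r` with `s < 1/r`. -/
theorem le_lr {s' C r : ℝ} (hr : 0 < r) (hs' : s' < 1 / r) (hs0 : 0 ≤ s') (hC : 0 < C)
    (hup : ∀ n : ℕ, 1 ≤ n → S.lam n ≤ C * (n : ℝ) ^ s') :
    ∃ C' : ℝ, 0 < C' ∧ ∀ {ι : Type} [Fintype ι] (x : ι → ℝ),
      S.N x ≤ C' * (∑ i, |x i| ^ r) ^ (1 / r) := by
  have hrs : r * s' < 1 := by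
    rw [lt_div_iff₀ hr] at hs'; linarith
  set b : ℝ := (2:ℝ) ^ (r * s' - 1) with hb
  have hb0 : 0 < b := by positivity
  have hb1 : b < 1 := Real.rpow_lt_one_of_one_lt_of_neg (by norm_num) (by linarith)
  refine ⟨C * 2 ^ (r * s') / (1 - b), by
    have : 0 < 1 - b := by linarith
    positivity, ?_⟩
  intro ι _ x
  classical
  -- normalised case
  have hnorm : ∀ y : ι → ℝ, (∑ i, |y i| ^ r) ≤ 1 → S.N y ≤ C * 2 ^ (r * s') / (1 - b) := by
    intro y hy
    have hy1 : ∀ i, |y i| ≤ 1 := by
      intro i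
      by_contra hlt
      push Not at hlt
      have h1 : |y i| ^ r ≤ ∑ i, |y i| ^ r :=
        Finset.single_le_sum (f := fun i => |y i| ^ r) (fun j _ => Real.rpow_nonneg (abs_nonneg _) _) (mem_univ i)
      have h2 : 1 < |y i| ^ r := Real.one_lt_rpow hlt hr
      linarith
    have hlev : ∀ i, ∃ j : ℕ, y i ≠ 0 → ((1/2:ℝ) ^ (j+1) < |y i| ∧ |y i| ≤ (1/2:ℝ) ^ j) := by
      intro i
      by_cases h0 : y i = 0
      · exact ⟨0, fun h => absurd h0 h⟩
      · obtain ⟨j, hj⟩ := exists_nat_pow_near_of_lt_one (abs_pos.mpr h0) (hy1 i)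
          (by norm_num : (0:ℝ) < 1/2) (by norm_num)
        exact ⟨j, fun _ => hj⟩
    choose lev hlev using hlev
    set J : ℕ := (univ.sup lev) + 1 with hJ
    have hlevJ : ∀ i, lev i ∈ range J := by
      intro i
      rw [mem_range, hJ]
      exact Nat.lt_succ_of_le (Finset.le_sup (f := lev) (mem_univ i))
    have hdec : y = fun i => ∑ j ∈ range J, (if lev i = j then y i else 0) := by
      funext i
      rw [Finset.sum_ite_eq]
      simp [hlevJ i]
    have hN : S.N y ≤ ∑ j ∈ range J, S.N (fun i => if lev i = j then y i else 0) := by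
      have := S.sum_le (range J) (fun j i => if lev i = j then y i else 0)
      rw [← hdec] at this
      exact this
    have hterm : ∀ j ∈ range J, S.N (fun i => if lev i = j then y i else 0) ≤ C * 2 ^ (r * s') * b ^ j := by
      intro j _
      set A : Finset ι := univ.filter (fun i => lev i = j ∧ y i ≠ 0) with hA
      have h1 : S.N (fun i => if lev i = j then y i else 0) ≤ (1/2:ℝ) ^ j * S.lam A.card := by
        apply S.ind_le A
        · intro i hi
          rw [hA, mem_filter] at hi
          rw [if_pos hi.2.1, ← hi.2.1]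
          exact (hlev i hi.2.2).2
        · intro i hi
          by_cases hl : lev i = j
          · have : y i = 0 := by
              by_contra h0
              exact hi (by rw [hA, mem_filter]; exact ⟨mem_univ _, hl, h0⟩)
            simp [this]
          · simp [hl]
        · positivity
      have h2 : (A.card : ℝ) * ((1/2:ℝ) ^ (j+1)) ^ r ≤ 1 := by
        calc (A.card : ℝ) * ((1/2:ℝ) ^ (j+1)) ^ r = ∑ i ∈ A, ((1/2:ℝ) ^ (j+1)) ^ r := by
              rw [Finset.sum_const, nsmul_eq_mul]
          _ ≤ ∑ i ∈ A, |y i| ^ r := by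
              apply Finset.sum_le_sum
              intro i hi
              rw [hA, mem_filter] at hi
              apply Real.rpow_le_rpow (by positivity) _ hr.le
              rw [← hi.2.1]
              exact (hlev i hi.2.2).1.le
          _ ≤ ∑ i, |y i| ^ r := Finset.sum_le_sum_of_subset_of_nonneg (subset_univ _)
              (fun i _ _ => Real.rpow_nonneg (abs_nonneg _) _)
          _ ≤ 1 := hy
      have h3 : (A.card : ℝ) ≤ (2:ℝ) ^ (r * ((j:ℝ)+1)) := by
        have h4 : ((1/2:ℝ) ^ (j+1)) ^ r = ((2:ℝ) ^ (r * ((j:ℝ)+1)))⁻¹ := by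
          rw [one_div, inv_pow, Real.inv_rpow (by positivity), ← Real.rpow_natCast, ← Real.rpow_mul (by norm_num)]
          congr 2
          push_cast
          ring
        rw [h4] at h2
        have h5 : (0:ℝ) < (2:ℝ) ^ (r * ((j:ℝ)+1)) := by positivity
        rw [mul_inv_le_iff₀ h5] at h2
        linarith
      have h4 : S.lam A.card ≤ C * ((2:ℝ) ^ (r * ((j:ℝ)+1))) ^ s' := by
        have hone : (1:ℝ) ≤ (2:ℝ) ^ (r * ((j:ℝ)+1)) := by
          apply Real.one_le_rpow (by norm_num)
          positivity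
        calc S.lam A.card ≤ S.lam (max 1 A.card) := S.lam_mono (le_max_right _ _)
          _ ≤ C * ((max 1 A.card : ℕ) : ℝ) ^ s' := hup _ (le_max_left _ _)
          _ ≤ _ := by
              apply mul_le_mul_of_nonneg_left _ hC.le
              apply Real.rpow_le_rpow (by positivity) _ hs0
              rw [Nat.cast_max]
              exact max_le (by simpa using hone) h3
      calc S.N (fun i => if lev i = j then y i else 0) ≤ (1/2:ℝ) ^ j * S.lam A.card := h1
        _ ≤ (1/2:ℝ) ^ j * (C * ((2:ℝ) ^ (r * ((j:ℝ)+1))) ^ s') :=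
            mul_le_mul_of_nonneg_left h4 (by positivity)
        _ = C * 2 ^ (r * s') * b ^ j := by
            rw [hb, ← Real.rpow_mul (by norm_num), ← Real.rpow_natCast (2 ^ (r * s' - 1)), ← Real.rpow_mul (by norm_num),
              one_div, inv_pow, ← Real.rpow_natCast 2 j, ← Real.rpow_neg (by norm_num)]
            have e1 : r * ((j:ℝ)+1) * s' = r * s' + r * s' * j := by ring
            rw [e1, Real.rpow_add (by norm_num)]
            have e2 : (r * s' - 1) * (j:ℝ) = r * s' * j + -(j:ℝ) := by ring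
            rw [e2, Real.rpow_add (by norm_num)]
            ring
    calc S.N y ≤ ∑ j ∈ range J, C * 2 ^ (r * s') * b ^ j := hN.trans (Finset.sum_le_sum hterm)
      _ = C * 2 ^ (r * s') * ∑ j ∈ range J, b ^ j := by rw [Finset.mul_sum]
      _ ≤ C * 2 ^ (r * s') * (1 - b)⁻¹ := by
          apply mul_le_mul_of_nonneg_left _ (by positivity)
          have h1 := (summable_geometric_of_lt_one hb0.le hb1).sum_le_tsum (range J) (fun i _ => by positivity)
          rw [tsum_geometric_of_lt_one hb0.le hb1] at h1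
          exact h1
      _ = _ := by rw [div_eq_mul_inv]
  -- general case
  set T : ℝ := ∑ i, |x i| ^ r with hT
  have hT0 : 0 ≤ T := Finset.sum_nonneg (fun i _ => Real.rpow_nonneg (abs_nonneg _) _)
  rcases hT0.eq_or_lt with h0 | hpos
  · have hx : ∀ i, x i = 0 := by
      intro i
      have h1 := (Finset.sum_eq_zero_iff_of_nonneg (fun i _ => Real.rpow_nonneg (abs_nonneg (x i)) r)).mp h0.symm i (mem_univ i)
      have h2 := (Real.rpow_eq_zero_iff_of_nonneg (abs_nonneg (x i))).mp h1
      exact abs_eq_zero.mp h2.1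
    have : x = fun _ => 0 := funext hx
    rw [this, S.zero_eq]
    have : 0 < 1 - b := by linarith
    positivity
  · set t : ℝ := T ^ (1 / r) with ht
    have htpos : 0 < t := by positivity
    have h1 := hnorm (fun i => t⁻¹ * x i) (by
      have : ∀ i, |t⁻¹ * x i| ^ r = T⁻¹ * |x i| ^ r := by
        intro i
        rw [abs_mul, Real.mul_rpow (abs_nonneg _) (abs_nonneg _), abs_of_pos (by positivity : 0 < t⁻¹),
          Real.inv_rpow htpos.le, ht, ← Real.rpow_mul hT0, one_div, inv_mul_cancel₀ hr.ne', Real.rpow_one]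
      simp_rw [this]
      rw [← Finset.mul_sum, ← hT, inv_mul_cancel₀ hpos.ne'])
    rw [S.smul_eq, abs_of_pos (by positivity : 0 < t⁻¹)] at h1
    rw [inv_mul_le_iff₀ htpos] at h1
    linarith

lemma lam_le_of_LB {c s : ℝ} (hc : 0 < c) (hLB : S.LB c) (hs : 0 ≤ s)
    (hup : ∀ s' : ℝ, s < s' → ∃ C : ℝ, 0 < C ∧ ∀ n : ℕ, 1 ≤ n → S.lam n ≤ C * (n : ℝ) ^ s')
    (n : ℕ) (hn : 1 ≤ n) : c * S.lam n ≤ (n : ℝ) ^ s := by
  have hn0 : (0:ℝ) < n := by exact_mod_cast hn
  have hpow : ∀ k : ℕ, (c * S.lam n) ^ (k+1) ≤ c * S.lam (n ^ (k+1)) := by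
    intro k
    induction k with
    | zero => simp
    | succ k ih =>
      calc (c * S.lam n) ^ (k+1+1) = (c * S.lam n) ^ (k+1) * (c * S.lam n) := pow_succ _ _
        _ ≤ (c * S.lam (n ^ (k+1))) * (c * S.lam n) :=
            mul_le_mul_of_nonneg_right ih (mul_nonneg hc.le (S.lam_nonneg _))
        _ = c * (c * S.lam (n ^ (k+1)) * S.lam n) := by ring
        _ ≤ c * S.lam (n ^ (k+1) * n) :=
            mul_le_mul_of_nonneg_left (S.le_lam_mul hLB _ _) hc.le
        _ = _ := by rw [pow_succ n (k+1)]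
  have hall : ∀ s' : ℝ, s < s' → c * S.lam n ≤ (n : ℝ) ^ s' := by
    intro s' hs'
    obtain ⟨C, hC, hCn⟩ := hup s' hs'
    refine growth (C := max 1 (c * C)) (D := 0) (mul_nonneg hc.le (S.lam_nonneg _))
      (by positivity) (by positivity) ?_
    intro k
    rcases k with _ | k
    · simp
    · calc (c * S.lam n) ^ (k+1) ≤ c * S.lam (n ^ (k+1)) := hpow k
        _ ≤ c * (C * ((n ^ (k+1) : ℕ) : ℝ) ^ s') :=
            mul_le_mul_of_nonneg_left (hCn _ (Nat.one_le_pow _ _ hn)) hc.le
        _ = (c * C) * ((n : ℝ) ^ s') ^ (k+1) := by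
            push_cast
            rw [← Real.rpow_natCast, ← Real.rpow_mul hn0.le, mul_comm ((k+1 : ℕ) : ℝ) s',
              Real.rpow_mul hn0.le, Real.rpow_natCast]
            ring
        _ ≤ _ := by
            rw [pow_zero, mul_one]
            exact mul_le_mul_of_nonneg_right (le_max_right _ _) (by positivity)
  have hcont : Tendsto (fun t : ℝ => (n : ℝ) ^ t) (𝓝[>] s) (𝓝 ((n : ℝ) ^ s)) :=
    ((Real.continuous_const_rpow hn0.ne').tendsto s).mono_left nhdsWithin_le_nhds
  exact ge_of_tendsto hcont (Filter.eventually_of_mem self_mem_nhdsWithin (fun t ht => hall t ht))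

/-- If the lower tensor estimate also holds, the norm is dominated by the sup norm when `s = 0`. -/
theorem le_sup {c : ℝ} (hc : 0 < c) (hLB : S.LB c)
    (hup : ∀ s' : ℝ, 0 < s' → ∃ C : ℝ, 0 < C ∧ ∀ n : ℕ, 1 ≤ n → S.lam n ≤ C * (n : ℝ) ^ s')
    {ι : Type} [Fintype ι] (x : ι → ℝ) (b : ℝ) (hb : 0 ≤ b) (hx : ∀ i, |x i| ≤ b) :
    c * S.N x ≤ b := by
  classical
  have h1 := S.ind_le (univ : Finset ι) b x (fun i _ => hx i) (fun i hi => absurd (mem_univ i) hi) hb
  have h2 := S.lam_le_of_LB hc hLB le_rfl hup (max 1 (univ : Finset ι).card) (le_max_left _ _)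
  rw [Real.rpow_zero] at h2
  have h3 := S.lam_mono (le_max_right 1 (univ : Finset ι).card)
  calc c * S.N x ≤ c * (b * S.lam (univ : Finset ι).card) := mul_le_mul_of_nonneg_left h1 hc.le
    _ ≤ c * (b * S.lam (max 1 (univ : Finset ι).card)) := by gcongr
    _ = b * (c * S.lam (max 1 (univ : Finset ι).card)) := by ring
    _ ≤ b * 1 := mul_le_mul_of_nonneg_left h2 hb
    _ = b := mul_one b

/-- If the lower tensor estimate also holds, the norm is dominated by the `ℓ_p` norm. -/
theorem le_lp {c s : ℝ} (hc : 0 < c) (hLB : S.LB c) (hs : 0 < s)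
    (hup : ∀ s' : ℝ, s < s' → ∃ C : ℝ, 0 < C ∧ ∀ n : ℕ, 1 ≤ n → S.lam n ≤ C * (n : ℝ) ^ s')
    {ι : Type} [Fintype ι] (x : ι → ℝ) :
    c * S.N x ≤ (∑ i, |x i| ^ (1 / s)) ^ s := by
  classical
  set p : ℝ := 1 / s with hp
  have hp0 : 0 < p := by positivity
  set T : ℝ := ∑ i, |x i| ^ p with hT
  have hT0 : 0 ≤ T := Finset.sum_nonneg (fun i _ => Real.rpow_nonneg (abs_nonneg _) _)
  have hl1 := S.lam_one_pos
  refine growth (C := (S.lam 1)⁻¹ * c⁻¹) (D := Fintype.card ι) (mul_nonneg hc.le (S.nonneg _))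
    (Real.rpow_nonneg hT0 _) (by positivity) ?_
  intro n
  have h1 := S.le_N_pw hc.le hLB x n
  -- decompose by types
  set T' : Finset (ι → ℕ) := Fintype.piFinset (fun _ => range (n+1)) with hT'
  have hTc : T'.card = (n+1) ^ (Fintype.card ι) := by simp [hT']
  set typ : (Fin n → ι) → (ι → ℕ) := fun w i => (univ.filter (fun j => w j = i)).card with htyp
  have hmaps : ∀ w, typ w ∈ T' := by
    intro w
    rw [hT', Fintype.mem_piFinset]
    intro i
    rw [mem_range]
    have : (univ.filter (fun j => w j = i)).card ≤ (univ : Finset (Fin n)).card := card_filter_le _ _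
    simp at this
    simp only [htyp]
    omega
  have hdec : pw x n = fun w => ∑ d ∈ T', (if typ w = d then pw x n w else 0) := by
    funext w
    rw [Finset.sum_ite_eq]
    simp [hmaps w]
  have h2 : S.N (pw x n) ≤ ∑ d ∈ T', S.N (fun w => if typ w = d then pw x n w else 0) := by
    have := S.sum_le T' (fun d w => if typ w = d then pw x n w else 0)
    rw [← hdec] at this
    exact this
  have h3 : ∀ d ∈ T', S.N (fun w => if typ w = d then pw x n w else 0) ≤ c⁻¹ * (T ^ s) ^ n := by
    intro d _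
    set F : Finset (Fin n → ι) := univ.filter (fun w => typ w = d) with hF
    set hh : ℝ := ∏ i, |x i| ^ d i with hhh
    have hh0 : 0 ≤ hh := Finset.prod_nonneg (fun i _ => pow_nonneg (abs_nonneg _) _)
    have hval : ∀ w ∈ F, |pw x n w| = hh := by
      intro w hw
      rw [hF, mem_filter] at hw
      exact pw_type x n d w (fun i => congrFun hw.2 i)
    rcases Nat.eq_zero_or_pos F.card with h0 | hpos
    · have hz : (fun w => if typ w = d then pw x n w else 0) = fun _ => (0:ℝ) := by
        funext w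
        have : w ∉ F := by
          rw [Finset.card_eq_zero] at h0
          rw [h0]; simp
        rw [hF, mem_filter] at this
        simp only [mem_univ, true_and] at this
        simp [this]
      rw [hz, S.zero_eq]
      positivity
    · have h4 : S.N (fun w => if typ w = d then pw x n w else 0) ≤ hh * S.lam F.card := by
        apply S.ind_le F
        · intro w hw
          have hw' := hw
          rw [hF, mem_filter] at hw
          rw [if_pos hw.2, hval w hw']
        · intro w hw
          rw [hF, mem_filter] at hw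
          simp only [mem_univ, true_and] at hw
          simp [hw]
        · exact hh0
      have h5 := S.lam_le_of_LB hc hLB hs.le hup F.card hpos
      have h6 : hh * S.lam F.card ≤ c⁻¹ * (hh * (F.card : ℝ) ^ s) := by
        rw [le_inv_mul_iff₀ hc]
        calc c * (hh * S.lam F.card) = hh * (c * S.lam F.card) := by ring
          _ ≤ _ := mul_le_mul_of_nonneg_left h5 hh0
      have h7 : hh * (F.card : ℝ) ^ s ≤ (T ^ s) ^ n := by
        have e1 : (T ^ s) ^ n = (T ^ n) ^ s := by
          rw [← Real.rpow_natCast, ← Real.rpow_natCast, ← Real.rpow_mul hT0, ← Real.rpow_mul hT0,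
            mul_comm]
        have e2 : hh * (F.card : ℝ) ^ s = ((F.card : ℝ) * hh ^ p) ^ s := by
          rw [Real.mul_rpow (Nat.cast_nonneg _) (Real.rpow_nonneg hh0 _), ← Real.rpow_mul hh0, hp, one_div,
            inv_mul_cancel₀ hs.ne', Real.rpow_one]
          ring
        rw [e1, e2]
        apply Real.rpow_le_rpow (mul_nonneg (Nat.cast_nonneg _) (Real.rpow_nonneg hh0 _)) _ hs.le
        have e3 : T ^ n = ∑ w : Fin n → ι, |pw x n w| ^ p := by
          rw [hT, Fintype.sum_pow]
          apply Finset.sum_congr rfl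
          intro w _
          unfold pw
          rw [Finset.abs_prod, ← Real.finsetProd_rpow _ _ (fun i _ => abs_nonneg _)]
        rw [e3]
        calc (F.card : ℝ) * hh ^ p = ∑ w ∈ F, |pw x n w| ^ p := by
              rw [Finset.sum_congr rfl (fun w hw => by rw [hval w hw]), Finset.sum_const, nsmul_eq_mul]
          _ ≤ _ := Finset.sum_le_sum_of_subset_of_nonneg (subset_univ _)
              (fun i _ _ => Real.rpow_nonneg (abs_nonneg _) _)
      exact h4.trans (h6.trans (mul_le_mul_of_nonneg_left h7 (by positivity)))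
  have h8 : S.N (pw x n) ≤ ((n:ℝ)+1) ^ (Fintype.card ι) * (c⁻¹ * (T ^ s) ^ n) := by
    refine h2.trans ((Finset.sum_le_sum h3).trans ?_)
    rw [Finset.sum_const, hTc, nsmul_eq_mul]
    push_cast
    exact le_rfl
  calc (c * S.N x) ^ n = (S.lam 1)⁻¹ * (S.lam 1 * (c * S.N x) ^ n) := by
        rw [← mul_assoc, inv_mul_cancel₀ hl1.ne', one_mul]
    _ ≤ (S.lam 1)⁻¹ * (((n:ℝ)+1) ^ (Fintype.card ι) * (c⁻¹ * (T ^ s) ^ n)) :=
        mul_le_mul_of_nonneg_left (h1.trans h8) (by positivity)
    _ = _ := by ring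

end SNorm

end Pool.Agent.helper51DH
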