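import Pool.Agent.helper51_dh.Lattice

open Finset Filter Topology

namespace Pool.Agent.helper51DH

/-- extend a finite injection to a permutation supported on domain and range -/
lemma exists_perm_extend (s : Finset ℕ) (τ : ℕ → ℕ) (hτ : Set.InjOn τ s) :
    ∃ σ : Equiv.Perm ℕ, (∀ k ∈ s, σ k = τ k) ∧ ∀ k, k ∉ s ∪ s.image τ → σ k = k := by
  classical
  set U : Finset ℕ := s ∪ s.image τ with hU
  have h1 : Fintype.card U = U.card := Fintype.card_coe U
  set s' : Finset U := Finset.univ.filter (fun k => (k : ℕ) ∈ s) with hs'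
  obtain ⟨g, hg⟩ := Finset.exists_equiv_extend_of_card_eq (α := U) (β := ℕ) (t := U) h1
    (s := s') (f := fun k => τ k) (by
      intro n hn
      rw [mem_image] at hn
      obtain ⟨k, hk, rfl⟩ := hn
      rw [hs', mem_filter] at hk
      exact Finset.mem_union_right _ (mem_image_of_mem τ hk.2)) (by
      intro k hk l hl hkl
      rw [hs', Finset.coe_filter] at hk hl
      exact Subtype.ext (hτ hk.2 hl.2 hkl))
  refine ⟨Equiv.Perm.ofSubtype (p := fun n => n ∈ U) g, ?_, ?_⟩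
  · intro k hk
    have hkU : k ∈ U := by rw [hU, mem_union]; exact Or.inl hk
    rw [Equiv.Perm.ofSubtype_apply_of_mem (p := fun n => n ∈ U) g hkU]
    exact hg ⟨k, hkU⟩ (by rw [hs', mem_filter]; exact ⟨mem_univ _, hk⟩)
  · intro k hk
    exact Equiv.Perm.ofSubtype_apply_of_not_mem g hk

/-- glue permutations with pairwise disjoint supports -/
lemma exists_perm_glue (U : ℕ → Finset ℕ) (hU : ∀ m n, m ≠ n → Disjoint (U m) (U n))
    (σ : ℕ → Equiv.Perm ℕ) (hσ : ∀ n k, k ∉ U n → σ n k = k) :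
    ∃ π : Equiv.Perm ℕ, ∀ n, ∀ k ∈ U n, π k = σ n k := by
  classical
  have huniq : ∀ m n k, k ∈ U m → k ∈ U n → m = n := by
    intro m n k hm hn
    by_contra hne
    exact (Finset.disjoint_left.mp (hU m n hne)) hm hn
  have hmem : ∀ n k, k ∈ U n → σ n k ∈ U n := by
    intro n k hk
    by_contra h
    have h1 := hσ n _ h
    have h2 : σ n k = k := (σ n).injective h1
    rw [h2] at h
    exact h hk
  have hmem' : ∀ n k, k ∈ U n → (σ n).symm k ∈ U n := by
    intro n k hk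
    by_contra h
    have h1 := hσ n _ h
    rw [Equiv.apply_symm_apply] at h1
    rw [← h1] at h
    exact h hk
  set f : ℕ → ℕ := fun k => if h : ∃ n, k ∈ U n then σ h.choose k else k with hf
  set g : ℕ → ℕ := fun k => if h : ∃ n, k ∈ U n then (σ h.choose).symm k else k with hg
  have hfU : ∀ n, ∀ k ∈ U n, f k = σ n k := by
    intro n k hk
    have h : ∃ n, k ∈ U n := ⟨n, hk⟩
    have h1 : h.choose = n := huniq _ _ k h.choose_spec hk
    simp only [hf, dif_pos h, h1]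
  have hgU : ∀ n, ∀ k ∈ U n, g k = (σ n).symm k := by
    intro n k hk
    have h : ∃ n, k ∈ U n := ⟨n, hk⟩
    have h1 : h.choose = n := huniq _ _ k h.choose_spec hk
    simp only [hg, dif_pos h, h1]
  refine ⟨⟨f, g, ?_, ?_⟩, hfU⟩
  · intro k
    by_cases h : ∃ n, k ∈ U n
    · obtain ⟨n, hn⟩ := h
      rw [hfU n k hn, hgU n _ (hmem n k hn), Equiv.symm_apply_apply]
    · simp only [hf, dif_neg h, hg]
  · intro k
    by_cases h : ∃ n, k ∈ U n
    · obtain ⟨n, hn⟩ := h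
      rw [hgU n k hn, hfU n _ (hmem' n k hn), Equiv.apply_symm_apply]
    · simp only [hg, dif_neg h, hf]

namespace AtomicLattice

variable {E : Type*} [NormedAddCommGroup E] [NormedSpace ℝ E] (L : AtomicLattice E)

lemma unit_ne (n : ℕ) : L.unit n ≠ 0 := by
  intro h
  have h1 := L.coord_unit n n
  rw [h] at h1
  simp at h1

lemma unit_disjoint {τ : ℕ → ℕ} (hτ : Function.Injective τ) :
    L.DisjointSeq (fun n => L.unit (τ n)) := by
  intro i j hij n
  rw [L.coord_unit, L.coord_unit]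
  by_cases h : n = τ i
  · right
    rw [if_neg]
    intro h2
    exact hij (hτ (h.symm.trans h2))
  · left
    rw [if_neg h]

lemma coord_unit_sum {ι : Type*} (s : Finset ι) (a : ι → ℝ) (τ : ι → ℕ) (n : ℕ) :
    L.coord (∑ i ∈ s, a i • L.unit (τ i)) n = ∑ i ∈ s, (if n = τ i then a i else 0) := by
  simp [map_sum, map_smul, L.coord_unit]

/-- norm of a combination of distinct unit vectors is monotone -/
lemma unit_comb_le {ι κ : Type*} (s : Finset ι) (t : Finset κ) (a : ι → ℝ) (b : κ → ℝ)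
    (τ : ι → ℕ) (ρ : κ → ℕ) (g : ι → κ) (hτ : Set.InjOn τ s) (hρ : Set.InjOn ρ t)
    (hg : ∀ i ∈ s, a i ≠ 0 → g i ∈ t ∧ ρ (g i) = τ i ∧ |a i| ≤ |b (g i)|) :
    ‖∑ i ∈ s, a i • L.unit (τ i)‖ ≤ ‖∑ k ∈ t, b k • L.unit (ρ k)‖ := by
  apply L.norm_le_norm
  intro n
  rw [L.coord_unit_sum, L.coord_unit_sum]
  by_cases h : ∃ i ∈ s, n = τ i ∧ a i ≠ 0
  · obtain ⟨i, hi, hn, hai⟩ := h
    obtain ⟨hgt, hgρ, hle⟩ := hg i hi hai
    rw [Finset.sum_eq_single_of_mem i hi (fun j hj hji => by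
      rw [if_neg]; intro h2; exact hji (hτ hj hi (h2.symm.trans hn))),
      Finset.sum_eq_single_of_mem (g i) hgt (fun j hj hji => by
      rw [if_neg]; intro h2; exact hji (hρ hj hgt (h2.symm.trans (hn.trans hgρ.symm)))),
      if_pos hn, if_pos (hn.trans hgρ.symm)]
    exact hle
  · push Not at h
    rw [Finset.sum_eq_zero (fun i hi => by
      by_cases h2 : n = τ i
      · rw [if_pos h2]; exact h i hi h2
      · rw [if_neg h2])]
    rw [abs_zero]; exact abs_nonneg _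

variable [CompleteSpace E]

lemma symm_off_finite (hS : L.IsSymmetric) :
    ∃ (F : Finset ℕ) (C : ℝ), 0 < C ∧ ∀ (s : Finset ℕ) (a : ℕ → ℝ) (τ : ℕ → ℕ),
      Set.InjOn τ s → Disjoint (s ∪ s.image τ) F →
      ‖∑ n ∈ s, a n • L.unit (τ n)‖ ≤ C * ‖∑ n ∈ s, a n • L.unit n‖ := by
  classical
  by_contra hcon
  push Not at hcon
  set P : ℕ × Finset ℕ × (ℕ → ℝ) × (ℕ → ℕ) → Prop := fun q =>
    Set.InjOn q.2.2.2 q.2.1 ∧
      (4:ℝ) ^ q.1 * ‖∑ n ∈ q.2.1, q.2.2.1 n • L.unit n‖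
        < ‖∑ n ∈ q.2.1, q.2.2.1 n • L.unit (q.2.2.2 n)‖ with hP
  set U : ℕ × Finset ℕ × (ℕ → ℝ) × (ℕ → ℕ) → Finset ℕ := fun q => q.2.1 ∪ q.2.1.image q.2.2.2 with hUdef
  obtain ⟨f, hf1, hf2⟩ := exists_seq_of_forall_finset_exists P
    (fun q q' => q.1 < q'.1 ∧ Disjoint (U q) (U q')) (by
      intro S _
      obtain ⟨s, a, τ, h1, h2, h3⟩ := hcon (S.biUnion U) ((4:ℝ) ^ (S.sup (fun q => q.1) + 1)) (by positivity)
      refine ⟨(S.sup (fun q => q.1) + 1, s, a, τ), ⟨h1, h3⟩, ?_⟩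
      intro q hq
      refine ⟨Nat.lt_succ_of_le (Finset.le_sup (f := fun q => q.1) hq), ?_⟩
      exact (Finset.disjoint_of_subset_right (Finset.subset_biUnion_of_mem U hq) h2).symm)
  have hidx : ∀ n, n ≤ (f n).1 := by
    have : StrictMono (fun n => (f n).1) := strictMono_nat_of_lt_succ (fun n => (hf2 n (n+1) (Nat.lt_succ_self n)).1)
    exact this.id_le
  have hdisj : ∀ m n, m ≠ n → Disjoint (U (f m)) (U (f n)) := by
    intro m n hmn
    rcases lt_or_gt_of_ne hmn with h | h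
    · exact (hf2 m n h).2
    · exact (hf2 n m h).2.symm
  choose σ hσ1 hσ2 using fun n => exists_perm_extend (f n).2.1 (f n).2.2.2 (hf1 n).1
  obtain ⟨π, hπ⟩ := exists_perm_glue (fun n => U (f n)) hdisj σ hσ2
  have hπτ : ∀ n, ∀ k ∈ (f n).2.1, π k = (f n).2.2.2 k := by
    intro n k hk
    rw [hπ n k (Finset.mem_union_left _ hk), hσ1 n k hk]
  have hdom := L.dominates (L.unit_disjoint π.injective) (L.unit_disjoint Function.injective_id)
    (fun k => L.unit_ne _) (fun a => (hS π a).2)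
  obtain ⟨C, hC, hCa⟩ := hdom
  obtain ⟨n, hn⟩ := pow_unbounded_of_one_lt C (by norm_num : (1:ℝ) < 4)
  have h1 := hCa (f n).2.1 (f n).2.2.1
  have h2 := (hf1 n).2
  have h3 : ∑ k ∈ (f n).2.1, (f n).2.2.1 k • L.unit (π k)
      = ∑ k ∈ (f n).2.1, (f n).2.2.1 k • L.unit ((f n).2.2.2 k) :=
    Finset.sum_congr rfl (fun k hk => by rw [hπτ n k hk])
  rw [h3] at h1
  have h4 : (4:ℝ) ^ n ≤ 4 ^ (f n).1 := pow_le_pow_right₀ (by norm_num) (hidx n)
  have h5 : 0 ≤ ‖∑ k ∈ (f n).2.1, (f n).2.2.1 k • L.unit k‖ := norm_nonneg _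
  simp only [id] at h1
  have h6 : C * ‖∑ k ∈ (f n).2.1, (f n).2.2.1 k • L.unit k‖
      ≤ 4 ^ (f n).1 * ‖∑ k ∈ (f n).2.1, (f n).2.2.1 k • L.unit k‖ :=
    mul_le_mul_of_nonneg_right (hn.le.trans h4) h5
  linarith

lemma semi_normalized (hS : L.IsSymmetric) :
    ∃ δ D : ℝ, 0 < δ ∧ (∀ n, δ ≤ ‖L.unit n‖) ∧ ∀ n, ‖L.unit n‖ ≤ D := by
  classical
  obtain ⟨F, C, hC, hFC⟩ := L.symm_off_finite hS
  obtain ⟨n0, hn0⟩ := Infinite.exists_notMem_finset F
  have hcmp : ∀ m n, m ∉ F → n ∉ F → ‖L.unit m‖ ≤ C * ‖L.unit n‖ := by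
    intro m n hm hn
    have h := hFC {n} (fun _ => 1) (fun _ => m) (by
      intro a ha b hb _
      simp at ha hb
      rw [ha, hb]) (by
      rw [Finset.disjoint_left]
      intro a ha
      simp at ha
      rcases ha with rfl | rfl
      · exact hn
      · exact hm)
    simpa using h
  have hpos : ∀ n, 0 < ‖L.unit n‖ := fun n => norm_pos_iff.mpr (L.unit_ne n)
  refine ⟨min (‖L.unit n0‖ / C) ((insert n0 F).inf' (insert_nonempty _ _) (fun n => ‖L.unit n‖)),
    max (C * ‖L.unit n0‖) ((insert n0 F).sup' (insert_nonempty _ _) (fun n => ‖L.unit n‖)), ?_, ?_, ?_⟩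
  · apply lt_min
    · exact div_pos (hpos n0) hC
    · rw [Finset.lt_inf'_iff]
      intro n _; exact hpos n
  · intro n
    by_cases hn : n ∈ F
    · exact (min_le_right _ _).trans (Finset.inf'_le _ (mem_insert_of_mem hn))
    · refine (min_le_left _ _).trans ?_
      rw [div_le_iff₀ hC]
      have := hcmp n0 n hn0 hn
      linarith
  · intro n
    by_cases hn : n ∈ F
    · exact (Finset.le_sup' (fun n => ‖L.unit n‖) (mem_insert_of_mem hn)).trans (le_max_right _ _)
    · exact (hcmp n n0 hn hn0).trans (le_max_left _ _)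

lemma symm_const (hS : L.IsSymmetric) :
    ∃ M : ℝ, 0 < M ∧ ∀ (s : Finset ℕ) (a : ℕ → ℝ) (τ : ℕ → ℕ), Set.InjOn τ s →
      ‖∑ n ∈ s, a n • L.unit (τ n)‖ ≤ M * ‖∑ n ∈ s, a n • L.unit n‖ := by
  classical
  obtain ⟨F, C, hC, hFC⟩ := L.symm_off_finite hS
  obtain ⟨δ, D, hδ, hδn, hDn⟩ := L.semi_normalized hS
  have hD : 0 < D := lt_of_lt_of_le hδ ((hδn 0).trans (hDn 0))
  refine ⟨C + (2 * F.card) * (D / δ), by positivity, ?_⟩
  intro s a τ hτ
  set good : Finset ℕ := s.filter (fun n => n ∉ F ∧ τ n ∉ F) with hgood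
  set bad : Finset ℕ := s.filter (fun n => ¬ (n ∉ F ∧ τ n ∉ F)) with hbad
  have hsplit : ∑ n ∈ s, a n • L.unit (τ n) = ∑ n ∈ good, a n • L.unit (τ n) + ∑ n ∈ bad, a n • L.unit (τ n) :=
    (Finset.sum_filter_add_sum_filter_not s _ _).symm
  have hdis : L.DisjointSeq (fun n => L.unit (id n)) := L.unit_disjoint Function.injective_id
  simp only [id] at hdis
  have h1 : ‖∑ n ∈ good, a n • L.unit (τ n)‖ ≤ C * ‖∑ n ∈ s, a n • L.unit n‖ := by
    refine (hFC good a τ (hτ.mono (Finset.filter_subset _ _)) ?_).trans ?_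
    · rw [Finset.disjoint_left]
      intro k hk
      rw [mem_union, mem_image] at hk
      rcases hk with hk | ⟨l, hl, rfl⟩
      · rw [hgood, mem_filter] at hk; exact hk.2.1
      · rw [hgood, mem_filter] at hl; exact hl.2.2
    · apply mul_le_mul_of_nonneg_left _ hC.le
      exact L.comb_mono hdis (Finset.filter_subset _ _) (fun _ _ => le_rfl)
  have hcard : (bad.card : ℝ) ≤ 2 * F.card := by
    have hsub : bad ⊆ F ∪ (s.filter (fun n => τ n ∈ F)) := by
      intro n hn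
      rw [hbad, mem_filter] at hn
      rw [mem_union, mem_filter]
      by_cases h : n ∈ F
      · exact Or.inl h
      · right
        refine ⟨hn.1, ?_⟩
        by_contra h2
        exact hn.2 ⟨h, h2⟩
    have hc2 : (s.filter (fun n => τ n ∈ F)).card ≤ F.card := by
      apply Finset.card_le_card_of_injOn τ
      · intro n hn
        have := (Finset.mem_filter.mp hn).2
        exact this
      · exact hτ.mono (by intro n hn; exact (Finset.mem_filter.mp hn).1)
    have hc3 : bad.card ≤ F.card + F.card :=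
      (Finset.card_le_card hsub).trans ((Finset.card_union_le _ _).trans (by omega))
    have : (bad.card : ℝ) ≤ ((F.card + F.card : ℕ) : ℝ) := by exact_mod_cast hc3
    push_cast at this
    linarith
  have h2 : ‖∑ n ∈ bad, a n • L.unit (τ n)‖ ≤ (2 * F.card) * (D / δ) * ‖∑ n ∈ s, a n • L.unit n‖ := by
    calc ‖∑ n ∈ bad, a n • L.unit (τ n)‖ ≤ ∑ n ∈ bad, ‖a n • L.unit (τ n)‖ := norm_sum_le _ _
      _ ≤ ∑ n ∈ bad, (D / δ) * ‖∑ n ∈ s, a n • L.unit n‖ := by
          apply Finset.sum_le_sum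
          intro n hn
          have hns : n ∈ s := (Finset.mem_filter.mp hn).1
          have h3 := L.comb_single_le hdis (a := a) hns
          rw [norm_smul, Real.norm_eq_abs]
          have h4 : |a n| * δ ≤ ‖∑ n ∈ s, a n • L.unit n‖ :=
            (mul_le_mul_of_nonneg_left (hδn n) (abs_nonneg _)).trans h3
          have h5 : |a n| ≤ ‖∑ n ∈ s, a n • L.unit n‖ / δ := by rwa [le_div_iff₀ hδ]
          calc |a n| * ‖L.unit (τ n)‖ ≤ (‖∑ n ∈ s, a n • L.unit n‖ / δ) * D :=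
                mul_le_mul h5 (hDn _) (norm_nonneg _) (by positivity)
            _ = _ := by ring
      _ = bad.card * ((D / δ) * ‖∑ n ∈ s, a n • L.unit n‖) := by
          rw [Finset.sum_const, nsmul_eq_mul]
      _ ≤ (2 * F.card) * ((D / δ) * ‖∑ n ∈ s, a n • L.unit n‖) :=
          mul_le_mul_of_nonneg_right hcard (by positivity)
      _ = _ := by ring
  rw [hsplit]
  calc _ ≤ ‖∑ n ∈ good, a n • L.unit (τ n)‖ + ‖∑ n ∈ bad, a n • L.unit (τ n)‖ := norm_add_le _ _
    _ ≤ _ := by linarith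

end AtomicLattice

end Pool.Agent.helper51DH
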