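import Pool.Agent.helper51_dh.FromE

open Finset Filter Topology

namespace Pool.Agent.helper51DH

namespace AtomicLattice

variable {E : Type*} [NormedAddCommGroup E] [NormedSpace ℝ E] (L : AtomicLattice E)
variable [CompleteSpace E]

/-- two-sided estimates along a common subsequence -/
lemma DH.estimates (hS : L.IsSymmetric) (hDH : L.DH) (x : ℕ → E) (hx1 : ∀ n, ‖x n‖ = 1)
    (hx : L.DisjointSeq x) : ∃ (φ : ℕ → ℕ) (C : ℝ), StrictMono φ ∧ 0 < C ∧
      ∀ (s : Finset ℕ) (a : ℕ → ℝ),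
        ‖∑ k ∈ s, a k • x (φ k)‖ ≤ C * ‖∑ k ∈ s, a k • L.unit k‖ ∧
        ‖∑ k ∈ s, a k • L.unit k‖ ≤ C * ‖∑ k ∈ s, a k • x (φ k)‖ := by
  classical
  obtain ⟨δ, D, hδ, hδn, hDn⟩ := L.semi_normalized hS
  have hD : 0 < D := lt_of_lt_of_le hδ ((hδn 0).trans (hDn 0))
  obtain ⟨M, hM, hMs⟩ := L.symm_gen hS
  have hdis : L.DisjointSeq (fun n => L.unit n) := L.unit_disjoint (τ := id) Function.injective_id
  have hpos : ∀ n, 0 < ‖L.unit n‖ := fun n => norm_pos_iff.mpr (L.unit_ne n)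
  set y : ℕ → E := fun n => ‖L.unit n‖⁻¹ • L.unit n with hy
  have hy1 : ∀ n, ‖y n‖ = 1 := by
    intro n
    rw [hy]; simp only
    rw [norm_smul, norm_inv, norm_norm, inv_mul_cancel₀ (hpos n).ne']
  have hyd : L.DisjointSeq y := by
    intro i j hij n
    rcases hdis i j hij n with h | h
    · left; simp only [hy, map_smul, Pi.smul_apply, h, smul_zero]
    · right; simp only [hy, map_smul, Pi.smul_apply, h, smul_zero]
  obtain ⟨φ, ψ, hφ, hψ, heq⟩ := hDH x y hx1 hy1 hx hyd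
  have hxφ : L.DisjointSeq (fun k => x (φ k)) := fun i j hij n =>
    hx _ _ (fun h => hij (hφ.injective h)) n
  have hyψ : L.DisjointSeq (fun k => y (ψ k)) := fun i j hij n =>
    hyd _ _ (fun h => hij (hψ.injective h)) n
  obtain ⟨C1, hC1, h1⟩ := L.dominates hxφ hyψ (fun k => by
    rw [← norm_pos_iff, hy1]; norm_num) (fun a => (heq a).2)
  obtain ⟨C2, hC2, h2⟩ := L.dominates hyψ hxφ (fun k => by
    rw [← norm_pos_iff, hx1]; norm_num) (fun a => (heq a).1)
  have hcmp : ∀ (s : Finset ℕ) (a : ℕ → ℝ),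
      ‖∑ k ∈ s, a k • L.unit (ψ k)‖ ≤ M * ‖∑ k ∈ s, a k • L.unit k‖ ∧
      ‖∑ k ∈ s, a k • L.unit k‖ ≤ M * ‖∑ k ∈ s, a k • L.unit (ψ k)‖ := by
    intro s a
    have h : ‖∑ i : s, a i • L.unit (ψ i)‖ ≤ M * ‖∑ i : s, a i • L.unit (i : ℕ)‖ :=
      hMs (fun i : s => a i) ⟨fun i : s => (i : ℕ), Subtype.val_injective⟩
        ⟨fun i : s => ψ i, fun i j hij => Subtype.ext (hψ.injective hij)⟩
    have h' : ‖∑ i : s, a i • L.unit (i : ℕ)‖ ≤ M * ‖∑ i : s, a i • L.unit (ψ i)‖ :=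
      hMs (fun i : s => a i) ⟨fun i : s => ψ i, fun i j hij => Subtype.ext (hψ.injective hij)⟩
        ⟨fun i : s => (i : ℕ), Subtype.val_injective⟩
    rw [Finset.sum_coe_sort s (fun i => a i • L.unit i),
      Finset.sum_coe_sort s (fun i => a i • L.unit (ψ i))] at h h'
    exact ⟨h, h'⟩
  have hψd : L.DisjointSeq (fun n => L.unit (ψ n)) := L.unit_disjoint hψ.injective
  have hcmp2 : ∀ (s : Finset ℕ) (a : ℕ → ℝ),
      ‖∑ k ∈ s, a k • y (ψ k)‖ ≤ δ⁻¹ * ‖∑ k ∈ s, a k • L.unit (ψ k)‖ ∧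
      ‖∑ k ∈ s, a k • L.unit (ψ k)‖ ≤ D * ‖∑ k ∈ s, a k • y (ψ k)‖ := by
    intro s a
    have e1 : ∑ k ∈ s, a k • y (ψ k) = ∑ k ∈ s, (a k * ‖L.unit (ψ k)‖⁻¹) • L.unit (ψ k) := by
      apply Finset.sum_congr rfl; intro k _; simp only [hy, smul_smul]
    constructor
    · rw [e1]
      have h3 : ‖∑ k ∈ s, (a k * ‖L.unit (ψ k)‖⁻¹) • L.unit (ψ k)‖ ≤
          ‖∑ k ∈ s, (δ⁻¹ * a k) • L.unit (ψ k)‖ := by
        apply L.comb_mono hψd (Finset.Subset.refl _)
        intro k _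
        rw [abs_mul, abs_mul, abs_inv, abs_norm, abs_inv, abs_of_pos hδ, mul_comm]
        exact mul_le_mul_of_nonneg_right (inv_anti₀ hδ (hδn _)) (abs_nonneg _)
      refine h3.trans (le_of_eq ?_)
      have : ∑ k ∈ s, (δ⁻¹ * a k) • L.unit (ψ k) = δ⁻¹ • ∑ k ∈ s, a k • L.unit (ψ k) := by
        rw [Finset.smul_sum]; exact Finset.sum_congr rfl (fun k _ => by rw [smul_smul])
      rw [this, norm_smul, norm_inv, Real.norm_eq_abs, abs_of_pos hδ]
    · have e2 : ∑ k ∈ s, a k • L.unit (ψ k) = ∑ k ∈ s, (a k * ‖L.unit (ψ k)‖) • y (ψ k) := by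
        apply Finset.sum_congr rfl; intro k _
        simp only [hy, smul_smul]
        rw [mul_assoc, mul_inv_cancel₀ (hpos _).ne', mul_one]
      rw [e2]
      have h3 : ‖∑ k ∈ s, (a k * ‖L.unit (ψ k)‖) • y (ψ k)‖ ≤
          ‖∑ k ∈ s, (D * a k) • y (ψ k)‖ := by
        apply L.comb_mono hyψ (Finset.Subset.refl _)
        intro k _
        rw [abs_mul, abs_mul, abs_norm, abs_of_pos hD, mul_comm]
        exact mul_le_mul_of_nonneg_right (hDn _) (abs_nonneg _)
      refine h3.trans (le_of_eq ?_)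
      have : ∑ k ∈ s, (D * a k) • y (ψ k) = D • ∑ k ∈ s, a k • y (ψ k) := by
        rw [Finset.smul_sum]; exact Finset.sum_congr rfl (fun k _ => mul_smul _ _ _)
      rw [this, norm_smul, Real.norm_eq_abs, abs_of_pos hD]
  refine ⟨φ, C1 * (δ⁻¹ * M) + M * (D * C2), hφ, by positivity, ?_⟩
  intro s a
  constructor
  · calc ‖∑ k ∈ s, a k • x (φ k)‖ ≤ C1 * ‖∑ k ∈ s, a k • y (ψ k)‖ := h1 s a
      _ ≤ C1 * (δ⁻¹ * ‖∑ k ∈ s, a k • L.unit (ψ k)‖) :=
          mul_le_mul_of_nonneg_left (hcmp2 s a).1 hC1.le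
      _ ≤ C1 * (δ⁻¹ * (M * ‖∑ k ∈ s, a k • L.unit k‖)) := by
          have := (hcmp s a).1
          gcongr
      _ = (C1 * (δ⁻¹ * M)) * ‖∑ k ∈ s, a k • L.unit k‖ := by ring
      _ ≤ _ := by
          apply mul_le_mul_of_nonneg_right _ (norm_nonneg _)
          have : 0 < M * (D * C2) := by positivity
          linarith
  · calc ‖∑ k ∈ s, a k • L.unit k‖ ≤ M * ‖∑ k ∈ s, a k • L.unit (ψ k)‖ := (hcmp s a).2
      _ ≤ M * (D * ‖∑ k ∈ s, a k • y (ψ k)‖) := by
          have := (hcmp2 s a).2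
          gcongr
      _ ≤ M * (D * (C2 * ‖∑ k ∈ s, a k • x (φ k)‖)) := by
          have := h2 s a
          gcongr
      _ = (M * (D * C2)) * ‖∑ k ∈ s, a k • x (φ k)‖ := by ring
      _ ≤ _ := by
          apply mul_le_mul_of_nonneg_right _ (norm_nonneg _)
          have : 0 < C1 * (δ⁻¹ * M) := by positivity
          linarith

/-- The upper half of disjoint homogeneity implies a tensor bound. -/
theorem exists_TB (hS : L.IsSymmetric)
    (hup : ∀ x : ℕ → E, (∀ n, ‖x n‖ = 1) → L.DisjointSeq x → ∃ (φ : ℕ → ℕ) (C : ℝ),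
      StrictMono φ ∧ 0 < C ∧ ∀ (s : Finset ℕ) (a : ℕ → ℝ),
        ‖∑ k ∈ s, a k • x (φ k)‖ ≤ C * ‖∑ k ∈ s, a k • L.unit k‖) :
    ∃ K : ℝ, 0 < K ∧ (L.toSNorm hS).TB K := by
  classical
  set S := L.toSNorm hS with hSdef
  obtain ⟨M, hM, hMN⟩ := L.NN_le hS
  by_contra hcon
  push Not at hcon
  have hcon' : ∀ j : ℕ, ∃ (m n : ℕ) (a : Fin m → ℝ) (x : Fin n → ℝ), S.N a = 1 ∧ S.N x = 1 ∧
      (4:ℝ) ^ j < S.N (fun p : Fin m × Fin n => a p.1 * x p.2) := by
    intro j
    have h1 := hcon ((4:ℝ) ^ j) (by positivity)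
    unfold SNorm.TB at h1
    push Not at h1
    obtain ⟨m, n, a, x, h2⟩ := h1
    have hne : ∀ {ι : Type} [Fintype ι] (z : ι → ℝ), S.N z = 0 → ∀ i, z i = 0 := by
      intro ι _ z hz i
      by_contra hzi
      exact absurd hz (S.pos_of_ne z i hzi).ne'
    have ha : 0 < S.N a := by
      rcases (S.nonneg a).eq_or_lt with h | h
      · exfalso
        have h3 : (fun p : Fin m × Fin n => a p.1 * x p.2) = fun _ => 0 := by
          funext p; rw [hne a h.symm p.1, zero_mul]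
        rw [h3, S.zero_eq, ← h] at h2
        simp at h2
      · exact h
    have hx : 0 < S.N x := by
      rcases (S.nonneg x).eq_or_lt with h | h
      · exfalso
        have h3 : (fun p : Fin m × Fin n => a p.1 * x p.2) = fun _ => 0 := by
          funext p; rw [hne x h.symm p.2, mul_zero]
        rw [h3, S.zero_eq, ← h] at h2
        simp at h2
      · exact h
    refine ⟨m, n, fun i => (S.N a)⁻¹ * a i, fun i => (S.N x)⁻¹ * x i, ?_, ?_, ?_⟩
    · rw [S.smul_eq, abs_of_pos (inv_pos.mpr ha), inv_mul_cancel₀ ha.ne']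
    · rw [S.smul_eq, abs_of_pos (inv_pos.mpr hx), inv_mul_cancel₀ hx.ne']
    · have h3 : (fun p : Fin m × Fin n => (S.N a)⁻¹ * a p.1 * ((S.N x)⁻¹ * x p.2))
          = fun p => ((S.N a)⁻¹ * (S.N x)⁻¹) * (a p.1 * x p.2) := by funext p; ring
      rw [h3, S.smul_eq (ι := Fin m × Fin n) ((S.N a)⁻¹ * (S.N x)⁻¹) (fun p => a p.1 * x p.2),
        abs_of_pos (by positivity)]
      calc (4:ℝ) ^ j = ((S.N a)⁻¹ * (S.N x)⁻¹) * (4 ^ j * S.N a * S.N x) := by
            field_simp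
        _ < _ := mul_lt_mul_of_pos_left h2 (by positivity)
  choose m n a x ha hx hax using hcon'
  -- the sequence
  set q : (Σ j : ℕ, Fin (n j)) → ℕ := fun p => Nat.pair p.1 p.2 with hq
  have hqinj : Function.Injective q := by
    rintro ⟨j, i⟩ ⟨j', i'⟩ h
    simp only [hq, Nat.pair_eq_pair] at h
    obtain ⟨h1, h2⟩ := h
    subst h1
    congr
    exact Fin.ext h2
  set I : ℕ → Finset (Σ j : ℕ, Fin (n j)) := fun k => (range (k+1)).sigma (fun j => univ) with hI
  set c : (Σ j : ℕ, Fin (n j)) → ℝ := fun p => (1/2:ℝ) ^ p.1 * x p.1 p.2 with hc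
  set y : ℕ → E := fun k => ∑ p ∈ I k, c p • L.unit (Nat.pair k (q p)) with hy
  have hρinj : ∀ k, Set.InjOn (fun p => Nat.pair k (q p)) (I k : Set (Σ j : ℕ, Fin (n j))) := by
    intro k p _ p' _ h
    simp only [Nat.pair_eq_pair, true_and] at h
    exact hqinj h
  have hycoord : ∀ k l, L.coord (y k) l ≠ 0 → (Nat.unpair l).1 = k := by
    intro k l h
    by_contra hne
    apply h
    rw [hy]
    simp only
    rw [L.coord_unit_sum]
    apply Finset.sum_eq_zero
    intro p _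
    rw [if_neg]
    intro h2
    apply hne
    rw [h2, Nat.unpair_pair]
  have hyd : L.DisjointSeq y := by
    intro i j hij l
    by_contra hh
    push Not at hh
    exact hij ((hycoord i l hh.1).symm.trans (hycoord j l hh.2))
  have hyle : ∀ k, ‖y k‖ ≤ 2 := by
    intro k
    have e1 : y k = ∑ j ∈ range (k+1), (1/2:ℝ) ^ j • ∑ i : Fin (n j), x j i • L.unit (Nat.pair k (Nat.pair j i)) := by
      rw [hy]; simp only [hI, hc, hq]
      rw [Finset.sum_sigma]
      apply Finset.sum_congr rfl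
      intro j _
      rw [Finset.smul_sum]
      exact Finset.sum_congr rfl (fun i _ => by rw [smul_smul])
    rw [e1]
    calc _ ≤ ∑ j ∈ range (k+1), ‖(1/2:ℝ) ^ j • ∑ i : Fin (n j), x j i • L.unit (Nat.pair k (Nat.pair j i))‖ :=
          norm_sum_le _ _
      _ ≤ ∑ j ∈ range (k+1), (1/2:ℝ) ^ j := by
          apply Finset.sum_le_sum
          intro j _
          rw [norm_smul, Real.norm_eq_abs, abs_of_nonneg (by positivity)]
          have h1 := L.le_NN hS (x j) ⟨fun i : Fin (n j) => Nat.pair k (Nat.pair j i), by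
            intro i i' h
            simp only [Nat.pair_eq_pair, true_and] at h
            exact Fin.ext h⟩
          have h2 : L.NN (x j) = 1 := hx j
          rw [h2] at h1
          calc _ ≤ (1/2:ℝ)^j * 1 := mul_le_mul_of_nonneg_left h1 (by positivity)
            _ = _ := mul_one _
      _ ≤ 2 := by
          have h1 := (summable_geometric_of_lt_one (by norm_num : (0:ℝ) ≤ 1/2) (by norm_num)).sum_le_tsum (range (k+1)) (fun i _ => by positivity)
          rw [tsum_geometric_of_lt_one (by norm_num) (by norm_num)] at h1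
          norm_num at h1 ⊢
          exact h1
  have hypos : ∀ k, 0 < ‖y k‖ := by
    intro k
    have h1 := hMN (x 0) (fun i => Nat.pair k (Nat.pair 0 i)) (by
      intro i i' h
      simp only [Nat.pair_eq_pair, true_and] at h
      exact Fin.ext h)
    have h2 : L.NN (x 0) = 1 := hx 0
    rw [h2] at h1
    have h3 : ‖∑ i, x 0 i • L.unit (Nat.pair k (Nat.pair 0 i))‖ ≤ ‖y k‖ := by
      rw [hy]
      apply L.unit_comb_le univ (I k) (x 0) c (fun i => Nat.pair k (Nat.pair 0 i))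
        (fun p => Nat.pair k (q p)) (fun i => ⟨0, i⟩) _ (hρinj k)
      · intro i _ _
        refine ⟨?_, rfl, ?_⟩
        · simp [hI]
        · simp [hc]
      · intro i _ i' _ h
        simp only [Nat.pair_eq_pair, true_and] at h
        exact Fin.ext h
    by_contra h4
    push Not at h4
    have h5 : ‖∑ i, x 0 i • L.unit (Nat.pair k (Nat.pair 0 i))‖ ≤ 0 := h3.trans h4
    have h6 : M * ‖∑ i, x 0 i • L.unit (Nat.pair k (Nat.pair 0 i))‖ ≤ 0 :=
      mul_nonpos_of_nonneg_of_nonpos hM.le h5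
    linarith
  set z : ℕ → E := fun k => ‖y k‖⁻¹ • y k with hz
  have hz1 : ∀ k, ‖z k‖ = 1 := by
    intro k
    simp only [hz]
    rw [norm_smul, norm_inv, norm_norm, inv_mul_cancel₀ (hypos k).ne']
  have hzd : L.DisjointSeq z := by
    intro i j hij l
    rcases hyd i j hij l with h | h
    · left; simp only [hz, map_smul, Pi.smul_apply, h, smul_zero]
    · right; simp only [hz, map_smul, Pi.smul_apply, h, smul_zero]
  obtain ⟨φ, C, hφ, hC, hest⟩ := hup z hz1 hzd
  obtain ⟨j, hj⟩ := pow_unbounded_of_one_lt (2 * M * C) (by norm_num : (1:ℝ) < 2)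
  -- test at j
  have hs := hest (Ico j (j + m j)) (fun k => if h : k - j < m j then a j ⟨k - j, h⟩ else 0)
  have hR : ‖∑ k ∈ Ico j (j + m j), (if h : k - j < m j then a j ⟨k - j, h⟩ else 0) • L.unit k‖ ≤ 1 := by
    have h1 := L.le_NN hS (a j) ⟨fun i : Fin (m j) => j + (i : ℕ), by
      intro i i' h
      exact Fin.ext (by simpa using h)⟩
    have h2 : L.NN (a j) = 1 := ha j
    rw [h2] at h1
    refine le_trans (le_of_eq ?_) h1
    congr 1
    rw [Finset.sum_Ico_eq_sum_range, add_tsub_cancel_left, Finset.sum_range]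
    apply Finset.sum_congr rfl
    intro i _
    have e : j + (i:ℕ) - j = i := by omega
    simp only [e, i.isLt, dif_pos]
    rfl
  have hLlow : ‖∑ p : Fin (m j) × Fin (n j), ((1/2:ℝ) ^ (j+1) * (a j p.1 * x j p.2)) •
      L.unit (Nat.pair (φ (j + p.1)) (Nat.pair j p.2))‖ ≤
      ‖∑ k ∈ Ico j (j + m j), (if h : k - j < m j then a j ⟨k - j, h⟩ else 0) • z (φ k)‖ := by
    have e1 : ∑ k ∈ Ico j (j + m j), (if h : k - j < m j then a j ⟨k - j, h⟩ else 0) • z (φ k)
        = ∑ r ∈ (Ico j (j + m j)).sigma (fun k => I (φ k)),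
          ((if h : r.1 - j < m j then a j ⟨r.1 - j, h⟩ else 0) * (‖y (φ r.1)‖⁻¹ * c r.2)) •
            L.unit (Nat.pair (φ r.1) (q r.2)) := by
      rw [Finset.sum_sigma]
      apply Finset.sum_congr rfl
      intro k _
      simp only [hz]
      rw [smul_smul, hy]
      simp only
      rw [Finset.smul_sum]
      apply Finset.sum_congr rfl
      intro p _
      rw [smul_smul]
      congr 1
      ring
    rw [e1]
    apply L.unit_comb_le univ _ _ _ _ _
      (fun p : Fin (m j) × Fin (n j) => (⟨j + (p.1 : ℕ), ⟨j, p.2⟩⟩ : Σ _ : ℕ, Σ j : ℕ, Fin (n j)))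
    · intro p _ p' _ h
      simp only [Nat.pair_eq_pair, true_and] at h
      have h1 := hφ.injective h.1
      apply Prod.ext
      · exact Fin.ext (by omega)
      · exact Fin.ext h.2
    · rintro ⟨k, p⟩ _ ⟨k', p'⟩ _ h
      simp only [Nat.pair_eq_pair] at h
      have h1 := hφ.injective h.1
      have h2 := hqinj h.2
      rw [h1, h2]
    · rintro ⟨t, i⟩ _ _
      refine ⟨?_, rfl, ?_⟩
      · simp only [mem_sigma, mem_Ico, hI, mem_range, mem_univ, and_true]
        refine ⟨⟨by omega, by have := t.isLt; omega⟩, ?_⟩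
        have := hφ.id_le (j + (t:ℕ))
        simp only [id] at this
        omega
      · have e : j + (t:ℕ) - j = t := by omega
        simp only [e, t.isLt, dif_pos, hc, Fin.eta]
        have h3 : (1/2:ℝ) ≤ ‖y (φ (j + (t:ℕ)))‖⁻¹ := by
          rw [one_div]
          exact inv_anti₀ (hypos _) (hyle _)
        rw [abs_mul, abs_mul, abs_mul, abs_mul, abs_mul, abs_of_pos (inv_pos.mpr (hypos _)),
          abs_of_nonneg (by positivity : (0:ℝ) ≤ (1/2)^(j+1)), abs_of_nonneg (by positivity : (0:ℝ) ≤ (1/2)^j)]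
        calc (1/2:ℝ)^(j+1) * (|a j t| * |x j i|) = (1/2) * (|a j t| * ((1/2)^j * |x j i|)) := by ring
          _ ≤ ‖y (φ (j + (t:ℕ)))‖⁻¹ * (|a j t| * ((1/2)^j * |x j i|)) :=
              mul_le_mul_of_nonneg_right h3 (by positivity)
          _ = _ := by ring
  have hNlow : (4:ℝ) ^ j < M * (2 ^ (j+1) * ‖∑ p : Fin (m j) × Fin (n j), ((1/2:ℝ) ^ (j+1) * (a j p.1 * x j p.2)) •
      L.unit (Nat.pair (φ (j + p.1)) (Nat.pair j p.2))‖) := by
    refine lt_of_lt_of_le (hax j) ?_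
    have h1 := hMN (fun p : Fin (m j) × Fin (n j) => a j p.1 * x j p.2)
      (fun p => Nat.pair (φ (j + p.1)) (Nat.pair j p.2)) (by
        intro p p' h
        simp only [Nat.pair_eq_pair, true_and] at h
        have h1 := hφ.injective h.1
        apply Prod.ext
        · exact Fin.ext (by omega)
        · exact Fin.ext h.2)
    refine h1.trans (le_of_eq ?_)
    congr 1
    have e2 : ∑ p : Fin (m j) × Fin (n j), ((1/2:ℝ) ^ (j+1) * (a j p.1 * x j p.2)) •
      L.unit (Nat.pair (φ (j + p.1)) (Nat.pair j p.2)) = (1/2:ℝ) ^ (j+1) • ∑ p : Fin (m j) × Fin (n j), (a j p.1 * x j p.2) •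
      L.unit (Nat.pair (φ (j + p.1)) (Nat.pair j p.2)) := by
      rw [Finset.smul_sum]; exact Finset.sum_congr rfl (fun p _ => by rw [smul_smul])
    rw [e2, norm_smul, Real.norm_eq_abs, abs_of_nonneg (by positivity : (0:ℝ) ≤ (1/2)^(j+1)),
      ← mul_assoc, ← mul_pow]
    norm_num
  have hfin : (4:ℝ) ^ j < M * (2 ^ (j+1) * C) := by
    refine lt_of_lt_of_le hNlow ?_
    apply mul_le_mul_of_nonneg_left _ hM.le
    apply mul_le_mul_of_nonneg_left _ (by positivity)
    calc _ ≤ _ := hLlow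
      _ ≤ _ := hs
      _ ≤ C * 1 := mul_le_mul_of_nonneg_left hR hC.le
      _ = C := mul_one C
  have h4 : (4:ℝ) ^ j = 2 ^ j * 2 ^ j := by rw [← mul_pow]; norm_num
  rw [h4, pow_succ] at hfin
  have h5 : (0:ℝ) < 2 ^ j := by positivity
  have h6 : (2:ℝ) ^ j * 2 ^ j < 2 ^ j * (2 * M * C) := by linarith [hfin]
  have h7 := lt_of_mul_lt_mul_left h6 h5.le
  linarith

end AtomicLattice

end Pool.Agent.helper51DH
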